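import Pool.Agent.Helper39.UT.Step

/-!
# Approximation of graphons by weighted graphs
-/

set_option autoImplicit false

open MeasureTheory Set Filter Topology

namespace Pool.Agent.Helper39.UT

lemma ae_unit2 : ∀ᵐ q ∂(μ.prod μ), q.1 ∈ Icc (0:ℝ) 1 ∧ q.2 ∈ Icc (0:ℝ) 1 := by
  have h : ∀ᵐ x ∂μ, x ∈ Icc (0:ℝ) 1 := ae_restrict_mem measurableSet_Icc
  have h1 := (measurePreserving_fst (μ := μ) (ν := μ)).quasiMeasurePreserving.ae h
  have h2 := (measurePreserving_snd (μ := μ) (ν := μ)).quasiMeasurePreserving.ae h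
  filter_upwards [h1, h2] with q a b using ⟨a, b⟩

lemma idx_close (N : ℕ) (hN : 0 < N) {x : ℝ} (hx : x ∈ Icc (0:ℝ) 1) :
    |((idx N hN x : ℕ) : ℝ) / N - x| ≤ 1 / N := by
  have hN' : (0:ℝ) < N := by exact_mod_cast hN
  obtain ⟨h0, h1⟩ := hx
  have hx0 : 0 ≤ (N:ℝ) * x := by positivity
  have e : ((idx N hN x : ℕ) : ℝ) / N - x = (((idx N hN x : ℕ) : ℝ) - N * x) / N := by
    field_simp
  rw [e, abs_div, abs_of_pos hN', div_le_div_iff_of_pos_right hN']
  have hfl := Nat.floor_le hx0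
  have hfl' := Nat.lt_floor_add_one ((N:ℝ) * x)
  simp only [idx]
  rcases le_total ⌊(N:ℝ) * x⌋₊ (N - 1) with h | h
  · rw [min_eq_left h, abs_le]
    constructor <;> linarith
  · rw [min_eq_right h]
    have h2 : ((N - 1 : ℕ) : ℝ) = N - 1 := by
      rw [Nat.cast_sub (by omega)]; simp
    have h3 : ((N - 1 : ℕ) : ℝ) ≤ (⌊(N:ℝ) * x⌋₊ : ℝ) := by exact_mod_cast h
    rw [h2] at h3 ⊢
    rw [abs_le]
    constructor
    · nlinarith
    · linarith

/-- Clamping to `[c,1]`. -/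
lemma clamp_lip {c a w : ℝ} (hw : c ≤ w ∧ w ≤ 1) : |max c (min 1 a) - w| ≤ |a - w| := by
  obtain ⟨h1, h2⟩ := hw
  rcases le_total 1 a with h | h
  · rw [min_eq_left h, max_eq_right (h1.trans h2), abs_of_nonneg (by linarith),
      abs_of_nonneg (by linarith)]
    linarith
  · rw [min_eq_right h]
    rcases le_total c a with h' | h'
    · rw [max_eq_right h']
    · rw [max_eq_left h', abs_of_nonpos (by linarith), abs_of_nonpos (by linarith)]
      linarith

/-- Approximation by continuous symmetric kernels. -/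
lemma exists_cont_seq {c : ℝ} (hc : 0 ≤ c) (hc1 : c ≤ 1) {W : ℝ → ℝ → ℝ} (hW : IsGr W)
    (hWc : ∀ x y, c ≤ W x y) :
    ∃ h : ℕ → ℝ → ℝ → ℝ, (∀ n, Continuous (Function.uncurry (h n))) ∧
      (∀ n x y, h n x y = h n y x) ∧ (∀ n x y, c ≤ h n x y ∧ h n x y ≤ 1) ∧
      ∀ᵐ q ∂(μ.prod μ), Tendsto (fun n => h n q.1 q.2) atTop (𝓝 (W q.1 q.2)) := by
  set f : ℝ × ℝ → ℝ := fun q => W q.1 q.2 with hf
  have hfm : Measurable f := hW.meas2
  have hfint : Integrable f (μ.prod μ) := by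
    refine Integrable.of_bound hfm.aestronglyMeasurable 1 (Eventually.of_forall fun q => ?_)
    rw [Real.norm_of_nonneg (hW.bd _ _).1]; exact (hW.bd _ _).2
  have hex : ∀ n : ℕ, ∃ g : BoundedContinuousFunction (ℝ × ℝ) ℝ,
      (∫ q, ‖f q - g q‖ ∂(μ.prod μ)) ≤ 1 / ((n:ℝ) + 1) ∧ Integrable g (μ.prod μ) := fun n =>
    hfint.exists_boundedContinuous_integral_sub_le (by positivity)
  choose g hg1 hg2 using hex
  set h : ℕ → ℝ × ℝ → ℝ := fun n q => max c (min 1 ((g n q + g n q.swap) / 2)) with hh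
  have hcont : ∀ n, Continuous (h n) := by
    intro n
    have h1 : Continuous (g n) := (g n).continuous
    have h2 : Continuous fun q : ℝ × ℝ => g n q.swap := h1.comp continuous_swap
    exact continuous_const.max (continuous_const.min ((h1.add h2).div_const 2))
  have hb : ∀ n q, c ≤ h n q ∧ h n q ≤ 1 := fun n q =>
    ⟨le_max_left _ _, max_le hc1 (min_le_left _ _)⟩
  have hint : ∀ n, Integrable (h n) (μ.prod μ) := by
    intro n
    refine Integrable.of_bound (hcont n).aestronglyMeasurable 1 (Eventually.of_forall fun q => ?_)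
    rw [Real.norm_of_nonneg (hc.trans (hb n q).1)]; exact (hb n q).2
  have hpt : ∀ n q, ‖h n q - f q‖ ≤ ‖f q - g n q‖ + ‖f q.swap - g n q.swap‖ := by
    intro n q
    have h1 : f q.swap = f q := hW.symm _ _
    have h2 := clamp_lip (c := c) (a := (g n q + g n q.swap) / 2) (w := f q)
      ⟨hWc _ _, (hW.bd _ _).2⟩
    have h3 : ‖h n q - f q‖ ≤ |(g n q + g n q.swap) / 2 - f q| := h2
    refine h3.trans ?_
    have h4 : (g n q + g n q.swap) / 2 - f q =
        -((f q - g n q) + (f q.swap - g n q.swap)) / 2 := by rw [h1]; ring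
    rw [h4, abs_div, abs_neg, abs_two]
    have h5 := abs_add_le (f q - g n q) (f q.swap - g n q.swap)
    rw [Real.norm_eq_abs, Real.norm_eq_abs]
    have h6 := abs_nonneg ((f q - g n q) + (f q.swap - g n q.swap))
    linarith
  have hle : ∀ n, ∫ q, ‖h n q - f q‖ ∂(μ.prod μ) ≤ 2 / ((n:ℝ) + 1) := by
    intro n
    have i1 : Integrable (fun q => ‖f q - g n q‖) (μ.prod μ) := (hfint.sub (hg2 n)).norm
    have i2 : Integrable (fun q : ℝ × ℝ => ‖f q.swap - g n q.swap‖) (μ.prod μ) := i1.swap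
    calc ∫ q, ‖h n q - f q‖ ∂(μ.prod μ)
        ≤ ∫ q, (‖f q - g n q‖ + ‖f q.swap - g n q.swap‖) ∂(μ.prod μ) :=
          integral_mono ((hint n).sub hfint).norm (i1.add i2) (hpt n)
      _ = (∫ q, ‖f q - g n q‖ ∂(μ.prod μ)) + ∫ q : ℝ × ℝ, ‖f q.swap - g n q.swap‖ ∂(μ.prod μ) :=
          integral_add i1 i2
      _ = (∫ q, ‖f q - g n q‖ ∂(μ.prod μ)) + ∫ q, ‖f q - g n q‖ ∂(μ.prod μ) := by
          rw [integral_prod_swap (μ := μ) (ν := μ) (fun q => ‖f q - g n q‖)]
      _ ≤ 2 / ((n:ℝ) + 1) := by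
          have := hg1 n
          have e : 2 / ((n:ℝ) + 1) = 1 / ((n:ℝ) + 1) + 1 / ((n:ℝ) + 1) := by ring
          rw [e]; linarith
  have hnorm : Tendsto (fun n => eLpNorm (h n - f) 1 (μ.prod μ)) atTop (𝓝 0) := by
    have h1 : ∀ n, eLpNorm (h n - f) 1 (μ.prod μ) =
        ENNReal.ofReal (∫ q, ‖h n q - f q‖ ∂(μ.prod μ)) := by
      intro n
      rw [eLpNorm_one_eq_lintegral_enorm]
      exact (ofReal_integral_norm_eq_lintegral_enorm ((hint n).sub hfint)).symm
    simp_rw [h1]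
    rw [← ENNReal.ofReal_zero]
    apply (ENNReal.continuous_ofReal.tendsto 0).comp
    refine squeeze_zero (fun n => integral_nonneg fun q => norm_nonneg _) hle ?_
    have := (tendsto_const_div_atTop_nhds_zero_nat (2:ℝ)).comp (tendsto_add_atTop_nat 1)
    simpa [Function.comp_def] using this
  have hmeas := tendstoInMeasure_of_tendsto_eLpNorm one_ne_zero
    (fun n => (hcont n).aestronglyMeasurable) hfm.aestronglyMeasurable hnorm
  obtain ⟨ns, hns, hae⟩ := hmeas.exists_seq_tendsto_ae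
  refine ⟨fun n x y => h (ns n) (x, y), fun n => hcont _, fun n x y => ?_, fun n x y => hb _ _,
    hae⟩
  simp only [hh, Prod.swap_prod_mk]
  rw [add_comm]

/-- Approximation of a graphon by weighted graphs with many vertices. -/
theorem exists_matrix {p c : ℝ} (hp : 0 < p) (hp1 : p < 1) (hc : 0 ≤ c) (hc1 : c ≤ 1)
    {W : ℝ → ℝ → ℝ} (hW : IsGr W) (hWc : ∀ x y, c ≤ W x y) {ε : ℝ} (hε : 0 < ε) (N₀ : ℕ) :
    ∃ (N : ℕ) (A : Fin N → Fin N → ℝ), 0 < N ∧ N₀ ≤ N ∧ (∀ x y, A x y = A y x) ∧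
      (∀ x y, c ≤ A x y ∧ A x y ≤ 1) ∧ |TN A - TG W| < ε ∧ |CN A - CG W| < ε ∧
      |IN p A - IG p W| < ε := by
  obtain ⟨h, hcont, hsymm, hb, hae⟩ := exists_cont_seq hc hc1 hW hWc
  have hGr : ∀ n, IsGr (h n) := fun n =>
    ⟨(hcont n).measurable, hsymm n, fun x y => ⟨hc.trans (hb n x y).1, (hb n x y).2⟩⟩
  have t1 := tendsto_TG hGr hae
  have t2 := tendsto_CG hGr hae
  have t3 := tendsto_IG hp hp1 hGr hae
  have ev := ((Metric.tendsto_atTop.mp t1 (ε / 2) (by positivity)))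
  have ev2 := ((Metric.tendsto_atTop.mp t2 (ε / 2) (by positivity)))
  have ev3 := ((Metric.tendsto_atTop.mp t3 (ε / 2) (by positivity)))
  obtain ⟨n1, hn1⟩ := ev
  obtain ⟨n2, hn2⟩ := ev2
  obtain ⟨n3, hn3⟩ := ev3
  set n := max n1 (max n2 n3) with hn
  have a1 := hn1 n (le_max_left _ _)
  have a2 := hn2 n ((le_max_left _ _).trans (le_max_right _ _))
  have a3 := hn3 n ((le_max_right _ _).trans (le_max_right _ _))
  -- now discretise
  set A : ∀ m : ℕ, Fin (m + 1) → Fin (m + 1) → ℝ := fun m i j =>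
    h n (((i : ℕ) : ℝ) / ((m + 1 : ℕ) : ℝ)) (((j : ℕ) : ℝ) / ((m + 1 : ℕ) : ℝ)) with hA
  have hstepGr : ∀ m, IsGr (step (Nat.succ_pos m) (A m)) := fun m =>
    isGr_step _ _ (fun x y => hsymm n _ _) fun x y => ⟨hc.trans (hb n _ _).1, (hb n _ _).2⟩
  have hconv : ∀ᵐ q ∂(μ.prod μ),
      Tendsto (fun m => step (Nat.succ_pos m) (A m) q.1 q.2) atTop (𝓝 (h n q.1 q.2)) := by
    filter_upwards [ae_unit2] with q hq
    have hx : ∀ x : ℝ, x ∈ Icc (0:ℝ) 1 →
        Tendsto (fun m : ℕ => ((idx (m + 1) (Nat.succ_pos m) x : ℕ) : ℝ) / ((m + 1 : ℕ) : ℝ))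
          atTop (𝓝 x) := by
      intro x hx
      rw [tendsto_iff_dist_tendsto_zero]
      refine squeeze_zero (fun m => dist_nonneg) (fun m => ?_)
        (tendsto_one_div_add_atTop_nhds_zero_nat (𝕜 := ℝ))
      rw [Real.dist_eq]
      have := idx_close (m + 1) (Nat.succ_pos m) hx
      push_cast at this ⊢
      exact this
    have h1 := (hx q.1 hq.1).prodMk_nhds (hx q.2 hq.2)
    exact ((hcont n).tendsto (q.1, q.2)).comp h1
  have s1 := tendsto_TG hstepGr hconv
  have s2 := tendsto_CG hstepGr hconv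
  have s3 := tendsto_IG hp hp1 hstepGr hconv
  obtain ⟨m1, hm1⟩ := Metric.tendsto_atTop.mp s1 (ε / 2) (by positivity)
  obtain ⟨m2, hm2⟩ := Metric.tendsto_atTop.mp s2 (ε / 2) (by positivity)
  obtain ⟨m3, hm3⟩ := Metric.tendsto_atTop.mp s3 (ε / 2) (by positivity)
  set m := max N₀ (max m1 (max m2 m3)) with hm
  have b1 := hm1 m ((le_max_left _ _).trans (le_max_right _ _))
  have b2 := hm2 m ((le_max_left _ _).trans ((le_max_right _ _).trans (le_max_right _ _)))
  have b3 := hm3 m ((le_max_right _ _).trans ((le_max_right _ _).trans (le_max_right _ _)))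
  rw [TG_step] at b1
  rw [CG_step] at b2
  rw [IG_step] at b3
  refine ⟨m + 1, A m, Nat.succ_pos m, (le_max_left _ _).trans (Nat.le_succ m),
    fun x y => hsymm n _ _, fun x y => hb n _ _, ?_, ?_, ?_⟩
  · rw [← Real.dist_eq]
    calc dist (TN (A m)) (TG W) ≤ dist (TN (A m)) (TG (h n)) + dist (TG (h n)) (TG W) :=
          dist_triangle _ _ _
      _ < ε := by linarith
  · rw [← Real.dist_eq]
    calc dist (CN (A m)) (CG W) ≤ dist (CN (A m)) (CG (h n)) + dist (CG (h n)) (CG W) :=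
          dist_triangle _ _ _
      _ < ε := by linarith
  · rw [← Real.dist_eq]
    calc dist (IN p (A m)) (IG p W) ≤ dist (IN p (A m)) (IG p (h n)) +
          dist (IG p (h n)) (IG p W) := dist_triangle _ _ _
      _ < ε := by linarith

end Pool.Agent.Helper39.UT
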