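import Pool.Agent.Helper39.UT.Final

/-!
# Translation to the iterated integrals of the frozen statement
-/

set_option autoImplicit false

open MeasureTheory Set Filter Topology

namespace Pool.Agent.Helper39.UT

lemma IG_eq {p : ℝ} (hp : 0 < p) (hp1 : p < 1) {W : ℝ → ℝ → ℝ} (hW : IsGr W) :
    IG p W = (1 / 2) * ∫ x in Set.Icc (0:ℝ) 1, ∫ y in Set.Icc (0:ℝ) 1,
        (W x y * Real.log (W x y / p) + (1 - W x y) * Real.log ((1 - W x y) / (1 - p))) := by
  unfold IG
  rw [integral_prod _ (hW.IG_integrable hp hp1)]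
  rfl

lemma TG_eq {W : ℝ → ℝ → ℝ} (hW : IsGr W) :
    TG W = ∫ x in Set.Icc (0:ℝ) 1, ∫ y in Set.Icc (0:ℝ) 1, ∫ z in Set.Icc (0:ℝ) 1,
        W x y * W y z * W x z := by
  unfold TG
  rw [integral_prod _ hW.TG_integrable]
  refine integral_congr_ae (Eventually.of_forall fun x => ?_)
  simp only
  have hmx : Measurable fun q : ℝ × ℝ => W x q.1 :=
    hW.meas.comp (measurable_const.prodMk measurable_fst)
  have hmx' : Measurable fun q : ℝ × ℝ => W x q.2 :=
    hW.meas.comp (measurable_const.prodMk measurable_snd)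
  have hint : Integrable (fun q : ℝ × ℝ => W x q.1 * W q.1 q.2 * W x q.2) (μ.prod μ) := by
    refine Integrable.of_bound ((hmx.mul hW.meas2).mul hmx').aestronglyMeasurable 1
      (Eventually.of_forall fun q => ?_)
    have := mul3_bound (hW.bd x q.1) (hW.bd q.1 q.2) (hW.bd x q.2)
    rw [Real.norm_of_nonneg this.1]
    exact this.2
  rw [integral_prod _ hint]

/-- The set of edges of the cherry on `{0,1,2}`. -/
def cherry : Finset (Fin 3 × Fin 3) := {(0, 1), (0, 2)}

lemma CG_eq (W : ℝ → ℝ → ℝ) :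
    (∫ x in Set.univ.pi (fun _ : Fin 3 => Set.Icc (0:ℝ) 1), ∏ e ∈ cherry, W (x e.1) (x e.2)) =
      CG W := by
  have h1 : (volume : Measure (Fin 3 → ℝ)).restrict (Set.univ.pi fun _ => Set.Icc (0:ℝ) 1) =
      Measure.pi fun _ => μ := by
    rw [volume_pi, Measure.restrict_pi_pi]
  rw [h1]
  have h2 : ∀ x : Fin 3 → ℝ, ∏ e ∈ cherry, W (x e.1) (x e.2) = W (x 0) (x 1) * W (x 0) (x 2) := by
    intro x
    unfold cherry
    rw [Finset.prod_insert (by decide), Finset.prod_singleton]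
  simp_rw [h2]
  have m1 := measurePreserving_piFinSuccAbove (n := 2) (fun _ : Fin 3 => μ) 0
  have m2 : MeasurePreserving (Prod.map id (MeasurableEquiv.piFinTwo fun _ => ℝ))
      (μ.prod (Measure.pi fun _ : Fin 2 => μ)) (μ.prod (μ.prod μ)) :=
    (MeasurePreserving.id μ).prod (measurePreserving_piFinTwo fun _ : Fin 2 => μ)
  have e1 := m1.integral_comp (MeasurableEquiv.measurableEmbedding _)
    (fun q : ℝ × (Fin 2 → ℝ) => W q.1 (q.2 0) * W q.1 (q.2 1))
  have e2 := m2.integral_comp ((MeasurableEquiv.refl ℝ).prodCongr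
    (MeasurableEquiv.piFinTwo fun _ => ℝ)).measurableEmbedding
    (fun q : ℝ × ℝ × ℝ => W q.1 q.2.1 * W q.1 q.2.2)
  unfold CG
  rw [← e2]
  exact e1

end Pool.Agent.Helper39.UT
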