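import Pool.Agent.Helper39.UT.Ent

/-!
# Compression of weighted graphs
-/

set_option autoImplicit false

open Filter Topology

namespace Pool.Agent.Helper39.UT

variable {N : ℕ}

/-- The vertices other than `i` and `j`. -/
def rest (i j : Fin N) : Finset (Fin N) := Finset.univ.filter fun v => v ≠ i ∧ v ≠ j

lemma mem_rest {i j v : Fin N} : v ∈ rest i j ↔ v ≠ i ∧ v ≠ j := by simp [rest]

lemma sum_split (i j : Fin N) (hij : i ≠ j) (f : Fin N → ℝ) :
    ∑ x, f x = f i + f j + ∑ x ∈ rest i j, f x := by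
  have h1 : rest i j = (Finset.univ.erase i).erase j := by
    ext v; simp [rest, and_comm]
  rw [h1, ← Finset.add_sum_erase Finset.univ f (Finset.mem_univ i),
    ← Finset.add_sum_erase (Finset.univ.erase i) f (a := j) (by simp [hij.symm])]
  ring

lemma double_split (G : Fin N → Fin N → ℝ) (i j : Fin N) (hij : i ≠ j) :
    ∑ x, ∑ y, G x y = (G i i + G i j + G j i + G j j) +
      (∑ v ∈ rest i j, (G i v + G v i + (G j v + G v j))) +
      ∑ u ∈ rest i j, ∑ v ∈ rest i j, G u v := by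
  rw [sum_split i j hij]
  simp_rw [sum_split i j hij (fun y => G _ y), Finset.sum_add_distrib]
  ring

lemma triple_split (K : Fin N → Fin N → Fin N → ℝ) (h1 : ∀ x y z, K x y z = K y x z)
    (h2 : ∀ x y z, K x y z = K x z y) (h0 : ∀ x z, K x x z = 0) (i j : Fin N) (hij : i ≠ j) :
    ∑ x, ∑ y, ∑ z, K x y z =
      (∑ u ∈ rest i j, ∑ v ∈ rest i j, ∑ w ∈ rest i j, K u v w) +
      3 * (∑ u ∈ rest i j, ∑ v ∈ rest i j, K i u v) +
      3 * (∑ u ∈ rest i j, ∑ v ∈ rest i j, K j u v) +
      6 * (∑ v ∈ rest i j, K i j v) := by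
  have h0' : ∀ x z, K x z x = 0 := fun x z => by rw [h2, h0]
  have h0'' : ∀ x z, K z x x = 0 := fun x z => by rw [h1, h0']
  rw [sum_split i j hij]
  simp_rw [sum_split i j hij (fun y => ∑ z, K _ y z), sum_split i j hij (fun z => K _ _ z),
    Finset.sum_add_distrib, h0, h0', h0'']
  have e1 : ∑ v ∈ rest i j, K j i v = ∑ v ∈ rest i j, K i j v :=
    Finset.sum_congr rfl fun v _ => h1 _ _ _
  have e2 : ∑ v ∈ rest i j, K i v j = ∑ v ∈ rest i j, K i j v :=
    Finset.sum_congr rfl fun v _ => h2 _ _ _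
  have e3 : ∑ v ∈ rest i j, K j v i = ∑ v ∈ rest i j, K i j v :=
    Finset.sum_congr rfl fun v _ => by rw [h2, h1]
  have e4 : ∑ v ∈ rest i j, K v i j = ∑ v ∈ rest i j, K i j v :=
    Finset.sum_congr rfl fun v _ => by rw [h1, h2]
  have e5 : ∑ v ∈ rest i j, K v j i = ∑ v ∈ rest i j, K i j v :=
    Finset.sum_congr rfl fun v _ => by rw [h1, h2, h1]
  have e6 : ∑ u ∈ rest i j, ∑ v ∈ rest i j, K u i v = ∑ u ∈ rest i j, ∑ v ∈ rest i j, K i u v :=
    Finset.sum_congr rfl fun u _ => Finset.sum_congr rfl fun v _ => h1 _ _ _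
  have e7 : ∑ u ∈ rest i j, ∑ v ∈ rest i j, K u v i = ∑ u ∈ rest i j, ∑ v ∈ rest i j, K i u v :=
    Finset.sum_congr rfl fun u _ => Finset.sum_congr rfl fun v _ => by rw [h2, h1]
  have e8 : ∑ u ∈ rest i j, ∑ v ∈ rest i j, K u j v = ∑ u ∈ rest i j, ∑ v ∈ rest i j, K j u v :=
    Finset.sum_congr rfl fun u _ => Finset.sum_congr rfl fun v _ => h1 _ _ _
  have e9 : ∑ u ∈ rest i j, ∑ v ∈ rest i j, K u v j = ∑ u ∈ rest i j, ∑ v ∈ rest i j, K j u v :=
    Finset.sum_congr rfl fun u _ => Finset.sum_congr rfl fun v _ => by rw [h2, h1]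
  simp only [e1, e2, e3, e4, e5, e6, e7, e8, e9, Finset.sum_const_zero]
  ring

/-- Symmetric matrices with entries in `[0,1]` and zero diagonal. -/
structure Good (B : Fin N → Fin N → ℝ) : Prop where
  symm : ∀ x y, B x y = B y x
  diag : ∀ x, B x x = 0
  bd : ∀ x y, 0 ≤ B x y ∧ B x y ≤ 1

def Tri (B : Fin N → Fin N → ℝ) : ℝ := ∑ x, ∑ y, ∑ z, B x y * B y z * B x z

def Cost (F : ℝ → ℝ) (B : Fin N → Fin N → ℝ) : ℝ := ∑ x, ∑ y, F (B x y)

def Phi (B : Fin N → Fin N → ℝ) : ℝ :=
  ∑ x : Fin N, ∑ y : Fin N, (((x : ℕ) : ℝ) + ((y : ℕ) : ℝ)) * B x y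

/-- One compression step. -/
noncomputable def comp (i j : Fin N) (B : Fin N → Fin N → ℝ) (x y : Fin N) : ℝ :=
  if x = i ∧ y ≠ i ∧ y ≠ j then max (B i y) (B j y)
  else if x = j ∧ y ≠ i ∧ y ≠ j then min (B i y) (B j y)
  else if y = i ∧ x ≠ i ∧ x ≠ j then max (B i x) (B j x)
  else if y = j ∧ x ≠ i ∧ x ≠ j then min (B i x) (B j x)
  else B x y

section comp

variable {i j : Fin N} (hij : i ≠ j) (B : Fin N → Fin N → ℝ)

include hij

lemma comp_i {v : Fin N} (hv : v ∈ rest i j) : comp i j B i v = max (B i v) (B j v) := by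
  rw [mem_rest] at hv
  simp [comp, hv.1, hv.2]

lemma comp_i' {v : Fin N} (hv : v ∈ rest i j) : comp i j B v i = max (B i v) (B j v) := by
  rw [mem_rest] at hv
  simp [comp, hv.1, hv.2]

lemma comp_j {v : Fin N} (hv : v ∈ rest i j) : comp i j B j v = min (B i v) (B j v) := by
  rw [mem_rest] at hv
  simp [comp, hv.1, hv.2, hij.symm]

lemma comp_j' {v : Fin N} (hv : v ∈ rest i j) : comp i j B v j = min (B i v) (B j v) := by
  rw [mem_rest] at hv
  simp [comp, hv.1, hv.2, hij.symm]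

omit hij in
lemma comp_rest {u v : Fin N} (hu : u ∈ rest i j) (hv : v ∈ rest i j) : comp i j B u v = B u v := by
  rw [mem_rest] at hu hv
  simp [comp, hv.1, hv.2, hu.1, hu.2]

lemma comp_ii : comp i j B i i = B i i := by simp [comp, hij]
lemma comp_ij : comp i j B i j = B i j := by simp [comp, hij.symm]
lemma comp_ji : comp i j B j i = B j i := by simp [comp, hij]
lemma comp_jj : comp i j B j j = B j j := by simp [comp, hij.symm]

lemma cases3 (v : Fin N) : v = i ∨ v = j ∨ v ∈ rest i j := by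
  rw [mem_rest]; tauto

lemma good_comp (hB : Good B) : Good (comp i j B) := by
  have c3 := cases3 hij
  refine ⟨?_, ?_, ?_⟩
  · intro x y
    rcases c3 x with rfl | rfl | hx <;> rcases c3 y with rfl | rfl | hy
    · rfl
    · rw [comp_ij hij, comp_ji hij, hB.symm]
    · rw [comp_i hij B hy, comp_i' hij B hy]
    · rw [comp_ij hij, comp_ji hij, hB.symm]
    · rfl
    · rw [comp_j hij B hy, comp_j' hij B hy]
    · rw [comp_i hij B hx, comp_i' hij B hx]
    · rw [comp_j hij B hx, comp_j' hij B hx]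
    · rw [comp_rest B hx hy, comp_rest B hy hx, hB.symm]
  · intro x
    rcases c3 x with rfl | rfl | hx
    · rw [comp_ii hij, hB.diag]
    · rw [comp_jj hij, hB.diag]
    · rw [comp_rest B hx hx, hB.diag]
  · intro x y
    rcases c3 x with rfl | rfl | hx <;> rcases c3 y with rfl | rfl | hy
    · rw [comp_ii hij]; exact hB.bd _ _
    · rw [comp_ij hij]; exact hB.bd _ _
    · rw [comp_i hij B hy]
      exact ⟨le_max_of_le_left (hB.bd _ _).1, max_le (hB.bd _ _).2 (hB.bd _ _).2⟩
    · rw [comp_ji hij]; exact hB.bd _ _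
    · rw [comp_jj hij]; exact hB.bd _ _
    · rw [comp_j hij B hy]
      exact ⟨le_min (hB.bd _ _).1 (hB.bd _ _).1, min_le_of_left_le (hB.bd _ _).2⟩
    · rw [comp_i' hij B hx]
      exact ⟨le_max_of_le_left (hB.bd _ _).1, max_le (hB.bd _ _).2 (hB.bd _ _).2⟩
    · rw [comp_j' hij B hx]
      exact ⟨le_min (hB.bd _ _).1 (hB.bd _ _).1, min_le_of_left_le (hB.bd _ _).2⟩
    · rw [comp_rest B hx hy]; exact hB.bd _ _

lemma cost_comp (F : ℝ → ℝ) (hB : Good B) : Cost F (comp i j B) = Cost F B := by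
  unfold Cost
  rw [double_split _ i j hij, double_split _ i j hij, comp_ii hij, comp_ij hij, comp_ji hij,
    comp_jj hij]
  congr 1
  · congr 1
    refine Finset.sum_congr rfl fun v hv => ?_
    rw [comp_i hij B hv, comp_i' hij B hv, comp_j hij B hv, comp_j' hij B hv, hB.symm v i,
      hB.symm v j]
    rcases le_total (B i v) (B j v) with h | h
    · rw [max_eq_right h, min_eq_left h]; ring
    · rw [max_eq_left h, min_eq_right h]
  · refine Finset.sum_congr rfl fun u hu => Finset.sum_congr rfl fun v hv => ?_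
    rw [comp_rest B hu hv]

lemma tri_comp (hB : Good B) : Tri B ≤ Tri (comp i j B) := by
  have hC := good_comp hij B hB
  unfold Tri
  have hK : ∀ D : Fin N → Fin N → ℝ, Good D →
      (∀ x y z, D x y * D y z * D x z = D y x * D x z * D y z) ∧
      (∀ x y z, D x y * D y z * D x z = D x z * D z y * D x y) ∧
      (∀ x z, D x x * D x z * D x z = 0) := by
    intro D hD
    refine ⟨fun x y z => ?_, fun x y z => ?_, fun x z => ?_⟩
    · rw [hD.symm x y]; ring
    · rw [hD.symm y z]; ring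
    · rw [hD.diag]; ring
  obtain ⟨h1, h2, h3⟩ := hK B hB
  obtain ⟨h1', h2', h3'⟩ := hK _ hC
  rw [triple_split (fun x y z => B x y * B y z * B x z) h1 h2 h3 i j hij,
    triple_split (fun x y z => comp i j B x y * comp i j B y z * comp i j B x z) h1' h2' h3'
      i j hij]
  have e1 : ∑ u ∈ rest i j, ∑ v ∈ rest i j, ∑ w ∈ rest i j,
      comp i j B u v * comp i j B v w * comp i j B u w =
      ∑ u ∈ rest i j, ∑ v ∈ rest i j, ∑ w ∈ rest i j, B u v * B v w * B u w := by
    refine Finset.sum_congr rfl fun u hu => Finset.sum_congr rfl fun v hv =>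
      Finset.sum_congr rfl fun w hw => ?_
    rw [comp_rest B hu hv, comp_rest B hv hw, comp_rest B hu hw]
  have e2 : ∑ v ∈ rest i j, comp i j B i j * comp i j B j v * comp i j B i v =
      ∑ v ∈ rest i j, B i j * B j v * B i v := by
    refine Finset.sum_congr rfl fun v hv => ?_
    rw [comp_ij hij, comp_i hij B hv, comp_j hij B hv, mul_assoc, min_mul_max, mul_assoc]
    ring
  have e3 : (∑ u ∈ rest i j, ∑ v ∈ rest i j, B i u * B u v * B i v) +
      (∑ u ∈ rest i j, ∑ v ∈ rest i j, B j u * B u v * B j v) ≤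
      (∑ u ∈ rest i j, ∑ v ∈ rest i j, comp i j B i u * comp i j B u v * comp i j B i v) +
      (∑ u ∈ rest i j, ∑ v ∈ rest i j, comp i j B j u * comp i j B u v * comp i j B j v) := by
    rw [← Finset.sum_add_distrib, ← Finset.sum_add_distrib]
    refine Finset.sum_le_sum fun u hu => ?_
    rw [← Finset.sum_add_distrib, ← Finset.sum_add_distrib]
    refine Finset.sum_le_sum fun v hv => ?_
    rw [comp_rest B hu hv, comp_i hij B hu, comp_i hij B hv, comp_j hij B hu, comp_j hij B hv]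
    have hb := (hB.bd u v).1
    have key : B i u * B i v + B j u * B j v ≤
        max (B i u) (B j u) * max (B i v) (B j v) + min (B i u) (B j u) * min (B i v) (B j v) := by
      rcases le_total (B i u) (B j u) with h | h <;> rcases le_total (B i v) (B j v) with h' | h'
      · rw [max_eq_right h, min_eq_left h, max_eq_right h', min_eq_left h']; linarith
      · rw [max_eq_right h, min_eq_left h, max_eq_left h', min_eq_right h']; nlinarith
      · rw [max_eq_left h, min_eq_right h, max_eq_right h', min_eq_left h']; nlinarith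
      · rw [max_eq_left h, min_eq_right h, max_eq_left h', min_eq_right h']
    nlinarith [mul_le_mul_of_nonneg_left key hb]
  rw [e1, e2]
  linarith

lemma phi_comp (hlt : i < j) (hB : Good B) {v : Fin N} (hv : v ∈ rest i j)
    (hbad : B i v < B j v) : Phi (comp i j B) < Phi B := by
  unfold Phi
  rw [double_split _ i j hij, double_split _ i j hij, comp_ii hij, comp_ij hij, comp_ji hij,
    comp_jj hij]
  have hlt' : ((i : ℕ) : ℝ) < ((j : ℕ) : ℝ) := by exact_mod_cast hlt
  have e1 : ∑ u ∈ rest i j, ∑ v ∈ rest i j, (((u : ℕ) : ℝ) + ((v : ℕ) : ℝ)) * comp i j B u v =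
      ∑ u ∈ rest i j, ∑ v ∈ rest i j, (((u : ℕ) : ℝ) + ((v : ℕ) : ℝ)) * B u v :=
    Finset.sum_congr rfl fun u hu => Finset.sum_congr rfl fun v hv => by rw [comp_rest B hu hv]
  rw [e1]
  have e2 : ∑ v ∈ rest i j, ((((i : ℕ) : ℝ) + ((v : ℕ) : ℝ)) * comp i j B i v +
        (((v : ℕ) : ℝ) + ((i : ℕ) : ℝ)) * comp i j B v i +
        ((((j : ℕ) : ℝ) + ((v : ℕ) : ℝ)) * comp i j B j v +
        (((v : ℕ) : ℝ) + ((j : ℕ) : ℝ)) * comp i j B v j)) <
      ∑ v ∈ rest i j, ((((i : ℕ) : ℝ) + ((v : ℕ) : ℝ)) * B i v +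
        (((v : ℕ) : ℝ) + ((i : ℕ) : ℝ)) * B v i +
        ((((j : ℕ) : ℝ) + ((v : ℕ) : ℝ)) * B j v +
        (((v : ℕ) : ℝ) + ((j : ℕ) : ℝ)) * B v j)) := by
    apply Finset.sum_lt_sum
    · intro u hu
      rw [comp_i hij B hu, comp_i' hij B hu, comp_j hij B hu, comp_j' hij B hu, hB.symm u i,
        hB.symm u j]
      rcases le_total (B i u) (B j u) with h | h
      · rw [max_eq_right h, min_eq_left h]; nlinarith
      · rw [max_eq_left h, min_eq_right h]
    · refine ⟨v, hv, ?_⟩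
      rw [comp_i hij B hv, comp_i' hij B hv, comp_j hij B hv, comp_j' hij B hv, hB.symm v i,
        hB.symm v j, max_eq_right hbad.le, min_eq_left hbad.le]
      nlinarith
  linarith

end comp

/-- Full compression of a weighted graph. -/
theorem exists_compressed {F : ℝ → ℝ} (hF : Continuous F) (A : Fin N → Fin N → ℝ) (hA : Good A) :
    ∃ B : Fin N → Fin N → ℝ, Good B ∧ Tri A ≤ Tri B ∧ Cost F B ≤ Cost F A ∧
      ∀ i j v : Fin N, i < j → v ≠ i → v ≠ j → B j v ≤ B i v := by
  set K : Set (Fin N → Fin N → ℝ) := {B | Good B ∧ Tri A ≤ Tri B ∧ Cost F B ≤ Cost F A} with hK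
  have hAK : A ∈ K := ⟨hA, le_refl _, le_refl _⟩
  have hcomp : IsCompact K := by
    have h1 : IsCompact (Set.pi Set.univ fun _ : Fin N => Set.pi Set.univ fun _ : Fin N =>
        Set.Icc (0:ℝ) 1) :=
      isCompact_univ_pi fun _ => isCompact_univ_pi fun _ => isCompact_Icc
    refine h1.of_isClosed_subset ?_ ?_
    · have hset : K = (⋂ x, ⋂ y, {B : Fin N → Fin N → ℝ | B x y = B y x}) ∩
          ((⋂ x, {B : Fin N → Fin N → ℝ | B x x = 0}) ∩
          ((⋂ x, ⋂ y, {B : Fin N → Fin N → ℝ | 0 ≤ B x y ∧ B x y ≤ 1}) ∩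
          ({B | Tri A ≤ Tri B} ∩ {B | Cost F B ≤ Cost F A}))) := by
        ext B
        simp only [hK, Set.mem_setOf_eq, Set.mem_inter_iff, Set.mem_iInter]
        constructor
        · rintro ⟨⟨a, b, c⟩, d, e⟩
          exact ⟨a, b, c, d, e⟩
        · rintro ⟨a, b, c, d, e⟩
          exact ⟨⟨a, b, c⟩, d, e⟩
      rw [hset]
      refine IsClosed.inter ?_ (IsClosed.inter ?_ (IsClosed.inter ?_ (IsClosed.inter ?_ ?_)))
      · refine isClosed_iInter fun x => isClosed_iInter fun y => ?_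
        exact isClosed_eq (f := fun B : Fin N → Fin N → ℝ => B x y) (g := fun B => B y x)
          (by fun_prop) (by fun_prop)
      · refine isClosed_iInter fun x => ?_
        exact isClosed_eq (f := fun B : Fin N → Fin N → ℝ => B x x) (g := fun _ => 0)
          (by fun_prop) (by fun_prop)
      · refine isClosed_iInter fun x => isClosed_iInter fun y => ?_
        exact (isClosed_le (f := fun _ => (0:ℝ)) (g := fun B : Fin N → Fin N → ℝ => B x y)
            (by fun_prop) (by fun_prop)).inter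
          (isClosed_le (f := fun B : Fin N → Fin N → ℝ => B x y) (g := fun _ => (1:ℝ))
            (by fun_prop) (by fun_prop))
      · refine isClosed_le (f := fun _ => Tri A) (g := fun B => Tri B) (by fun_prop) ?_
        unfold Tri; fun_prop
      · refine isClosed_le (f := fun B => Cost F B) (g := fun _ => Cost F A) ?_ (by fun_prop)
        unfold Cost; fun_prop
    · rintro B ⟨hB, _⟩ x _ y _
      exact hB.bd x y
  obtain ⟨B, ⟨hB, hBT, hBC⟩, hmin⟩ := hcomp.exists_isMinOn ⟨A, hAK⟩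
    (f := Phi) (by unfold Phi; fun_prop)
  refine ⟨B, hB, hBT, hBC, ?_⟩
  intro i j v hij hvi hvj
  by_contra hcon
  rw [not_le] at hcon
  have hne : i ≠ j := hij.ne
  have hv : v ∈ rest i j := mem_rest.mpr ⟨hvi, hvj⟩
  have h1 := phi_comp hne B hij hB hv hcon
  have h2 : comp i j B ∈ K := ⟨good_comp hne B hB, hBT.trans (tri_comp hne B hB),
    (cost_comp hne B F hB).trans_le hBC⟩
  have h3 := hmin h2
  simp only [Set.mem_setOf_eq] at h3
  linarith

end Pool.Agent.Helper39.UT
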