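import Pool.Agent.Helper39.UT.Ent

/-!
# Domination: consequences of the linear lower bounds
-/

set_option autoImplicit false

open Filter Topology

namespace Pool.Agent.Helper39.UT

/-- `r` satisfies all linear lower bounds in terms of `d`. -/
def Dom (p d r : ℝ) : Prop :=
  (∀ lam : ℝ, 0 ≤ lam → lam ≤ 1 → lam * d - p * lam ^ 2 ≤ r) ∧
    (∀ lam : ℝ, 0 ≤ lam → lam * d - p * Real.exp lam ≤ r)

lemma dom_Ip {p x : ℝ} (hp : 0 < p) (hp1 : p < 1) (hx : 0 ≤ x) (hx1 : p + x ≤ 1) :
    Dom p x (Ip p (p + x)) :=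
  ⟨fun _ h0 h1 => Ip_ge_small hp hp1 hx hx1 h0 h1, fun _ h0 => Ip_ge_lin hp hp1 hx hx1 h0⟩

/-- Eventually small exponentials. -/
lemma ev_exp_le (c e : ℝ) (hc : 0 < c) (he : 0 < e) : ∀ᶠ L : ℝ in atTop, Real.exp (-(c * L)) ≤ e := by
  have h : Tendsto (fun L : ℝ => Real.exp (-(c * L))) atTop (𝓝 0) := by
    apply Real.tendsto_exp_atBot.comp
    apply tendsto_neg_atTop_atBot.comp
    exact tendsto_id.const_mul_atTop hc
  exact (h.eventually (eventually_lt_nhds he)).mono fun _ h => h.le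

lemma ev_exp_mul_le (c e : ℝ) (hc : 0 < c) (he : 0 < e) :
    ∀ᶠ L : ℝ in atTop, Real.exp (-(c * L)) * L ≤ e := by
  have h : Tendsto (fun L : ℝ => L ^ (1 : ℝ) * Real.exp (-c * L)) atTop (𝓝 0) :=
    tendsto_rpow_mul_exp_neg_mul_atTop_nhds_zero 1 c hc
  have h' := (h.eventually (eventually_lt_nhds he)).mono fun _ h => h.le
  filter_upwards [h'] with L hL
  rw [Real.rpow_one] at hL
  rw [mul_comm, ← neg_mul]
  exact hL

/-- Lemma 1: `(1-ε) L d² ≤ r`. -/
lemma dom_quad (ε : ℝ) (hε : 0 < ε) (hε1 : ε < 1) : ∀ᶠ L : ℝ in atTop, ∀ d r : ℝ, 0 ≤ d → d ≤ 1 →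
    Dom (Real.exp (-L)) d r → (1 - ε) * L * d ^ 2 ≤ r := by
  filter_upwards [ev_exp_mul_le 1 (1 / 4) one_pos (by norm_num),
    ev_exp_le (ε / 2) (ε / 8) (by positivity) (by positivity), eventually_gt_atTop 0] with L h1 h2 hL
  intro d r hd hd1 ⟨hr1, hr2⟩
  rw [one_mul] at h1
  set p := Real.exp (-L) with hp
  have hp0 : 0 < p := Real.exp_pos _
  have key : (1 - ε) * L * d ^ 2 ≤ L * d ^ 2 := by
    have : 0 ≤ L * d ^ 2 := by positivity
    nlinarith
  rcases le_total d p with h | h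
  · -- d ≤ p
    have := hr1 (d / (2 * p)) (by positivity) (by
      rw [div_le_one (by positivity)]; linarith)
    have e1 : d / (2 * p) * d - p * (d / (2 * p)) ^ 2 = d ^ 2 / (4 * p) := by
      field_simp; ring
    rw [e1] at this
    have e2 : L * d ^ 2 ≤ d ^ 2 / (4 * p) := by
      rw [le_div_iff₀ (by positivity)]
      have : 0 ≤ d ^ 2 := sq_nonneg d
      nlinarith
    linarith
  · rcases le_total d (1 / (4 * L)) with h' | h'
    · have := hr1 (1 / 2) (by norm_num) (by norm_num)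
      have e2 : d * (4 * L) ≤ 1 := by
        rwa [le_div_iff₀ (by positivity)] at h'
      have e3 : L * d ^ 2 ≤ d / 4 := by nlinarith
      linarith
    · have hlam : 0 ≤ (1 - ε / 2) * L := by
        apply mul_nonneg _ hL.le
        linarith
      have := hr2 ((1 - ε / 2) * L) hlam
      have e1 : p * Real.exp ((1 - ε / 2) * L) = Real.exp (-(ε / 2 * L)) := by
        rw [hp, ← Real.exp_add]; congr 1; ring
      rw [e1] at this
      have e2 : 1 ≤ d * (4 * L) := by
        rwa [div_le_iff₀ (by positivity)] at h'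
      have e3 : Real.exp (-(ε / 2 * L)) ≤ ε / 2 * (L * d) := by nlinarith
      have e4 : (1 - ε) * L * d ^ 2 ≤ (1 - ε) * L * d := by
        have h5 : 0 ≤ (1 - ε) * L := mul_nonneg (by linarith) hL.le
        have h6 : d ^ 2 ≤ d := by nlinarith
        exact mul_le_mul_of_nonneg_left h6 h5
      nlinarith

/-- Lemma 2: small degrees are expensive. -/
lemma dom_small (b : ℝ) (hb : 0 < b) (hb1 : b < 1) : ∀ᶠ L : ℝ in atTop, ∀ d r : ℝ, 0 ≤ d → d ≤ b →
    Dom (Real.exp (-L)) d r → L / (4 * b) * d ^ 2 ≤ r := by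
  filter_upwards [ev_exp_mul_le 1 b one_pos hb,
    ev_exp_le (1 / 4) (b / 4) (by norm_num) (by positivity), eventually_gt_atTop 0] with L h1 h2 hL
  intro d r hd hd1 ⟨hr1, hr2⟩
  rw [one_mul] at h1
  set p := Real.exp (-L) with hp
  have hp0 : 0 < p := Real.exp_pos _
  have h0 : L / (4 * b) * d ^ 2 = (L * d ^ 2) / (4 * b) := by ring
  rw [h0, div_le_iff₀ (by positivity)]
  rcases le_total d p with h | h
  · have := hr1 (d / (2 * p)) (by positivity) (by
      rw [div_le_one (by positivity)]; linarith)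
    have e1 : d / (2 * p) * d - p * (d / (2 * p)) ^ 2 = d ^ 2 / (4 * p) := by
      field_simp; ring
    rw [e1] at this
    have e2 : L * d ^ 2 ≤ d ^ 2 / (4 * p) * (4 * b) := by
      rw [div_mul_eq_mul_div, le_div_iff₀ (by positivity)]
      have : 0 ≤ d ^ 2 := sq_nonneg d
      nlinarith
    have e3 : d ^ 2 / (4 * p) * (4 * b) ≤ r * (4 * b) :=
      mul_le_mul_of_nonneg_right this (by positivity)
    linarith
  · rcases le_total d (b / L) with h' | h'
    · have := hr1 (1 / 2) (by norm_num) (by norm_num)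
      have e2 : d * L ≤ b := by
        rwa [le_div_iff₀ (by positivity)] at h'
      have e3 : d / 4 ≤ r := by linarith
      have e4 : L * d ^ 2 ≤ d * b := by nlinarith
      nlinarith
    · have hlam : 0 ≤ (3 / 4) * L := by positivity
      have := hr2 ((3 / 4) * L) hlam
      have e1 : p * Real.exp ((3 / 4) * L) = Real.exp (-(1 / 4 * L)) := by
        rw [hp, ← Real.exp_add]; congr 1; ring
      rw [e1] at this
      have e2 : b ≤ d * L := by
        rwa [div_le_iff₀ (by positivity)] at h'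
      have e3 : L * d / 2 ≤ r := by nlinarith
      have e4 : L * d ^ 2 ≤ L * d * b := by
        have : 0 ≤ L * d := by positivity
        nlinarith
      nlinarith

/-- Lemma 3: hubs. -/
lemma dom_hub (ε b : ℝ) (hε : 0 < ε) (hε1 : ε < 1 / 2) (hb : 0 < b) :
    ∀ᶠ L : ℝ in atTop, ∀ d r : ℝ, b ≤ d →
    Dom (Real.exp (-L)) d r → (1 - 2 * ε) * L * d ≤ r := by
  filter_upwards [ev_exp_le ε (ε * b) hε (by positivity), eventually_gt_atTop 1] with L h1 hL
  intro d r hd ⟨_, hr2⟩
  have hlam : 0 ≤ (1 - ε) * L := by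
    apply mul_nonneg _ (by linarith)
    linarith
  have := hr2 ((1 - ε) * L) hlam
  have e1 : Real.exp (-L) * Real.exp ((1 - ε) * L) = Real.exp (-(ε * L)) := by
    rw [← Real.exp_add]; congr 1; ring
  rw [e1] at this
  have e2 : ε * b ≤ ε * (L * d) := by
    apply mul_le_mul_of_nonneg_left _ hε.le
    nlinarith
  nlinarith

/-- Lemma 4: the mean is small. -/
lemma dom_mean (ε : ℝ) (hε : 0 < ε) (hε1 : ε < 1) :
    ∀ᶠ L : ℝ in atTop, ∀ u r : ℝ, r ≤ 6 * Real.exp (-L) ^ 2 * L →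
    Dom (Real.exp (-L)) u r → u ≤ ε * Real.exp (-L) := by
  filter_upwards [ev_exp_mul_le 1 (ε ^ 2 / 24) one_pos (by positivity), eventually_gt_atTop 1]
    with L h1 hL
  intro u r hr ⟨hr1, _⟩
  rw [one_mul] at h1
  set p := Real.exp (-L) with hp
  have hp0 : 0 < p := Real.exp_pos _
  have := hr1 (ε / 2) (by positivity) (by linarith)
  have h2 : 6 * p ^ 2 * L ≤ ε ^ 2 / 4 * p := by
    have : 6 * p ^ 2 * L = 6 * p * (p * L) := by ring
    rw [this]
    nlinarith
  have h3 : ε / 2 * u ≤ ε / 2 * (ε * p) := by nlinarith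
  exact le_of_mul_le_mul_left h3 (by positivity)

end Pool.Agent.Helper39.UT
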