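import Mathlib

/-!
# The relative entropy function `Ip` and its basic lower bounds
-/

set_option autoImplicit false

open Filter Topology

namespace Pool.Agent.Helper39.UT

/-- Relative entropy of Bernoulli(u) w.r.t. Bernoulli(p). -/
noncomputable def Ip (p u : ℝ) : ℝ :=
  u * Real.log (u / p) + (1 - u) * Real.log ((1 - u) / (1 - p))

lemma mul_log_div_ge {a b : ℝ} (ha : 0 ≤ a) (hb : 0 < b) : a - b ≤ a * Real.log (a / b) := by
  rcases ha.eq_or_lt with h | h
  · subst h; simp; exact hb.le
  · have h1 := Real.one_sub_inv_le_log_of_pos (div_pos h hb)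
    have h2 : a * (1 - (a / b)⁻¹) = a - b := by field_simp
    rw [← h2]
    exact mul_le_mul_of_nonneg_left h1 ha

/-- The master inequality. -/
lemma Ip_ge (p u lam : ℝ) (hp : 0 < p) (hp1 : p < 1) (hu : 0 ≤ u) (hu1 : u ≤ 1) :
    lam * u - p * (Real.exp lam - 1) ≤ Ip p u := by
  have h1 : u - p * Real.exp lam ≤ u * Real.log (u / (p * Real.exp lam)) :=
    mul_log_div_ge hu (by positivity)
  have h2 : (1 - u) - (1 - p) ≤ (1 - u) * Real.log ((1 - u) / (1 - p)) :=
    mul_log_div_ge (by linarith) (by linarith)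
  have h3 : u * Real.log (u / (p * Real.exp lam)) = u * Real.log (u / p) - lam * u := by
    rcases hu.eq_or_lt with h | h
    · subst h; simp
    · rw [← div_div, Real.log_div (by positivity) (by positivity), Real.log_exp]
      ring
  unfold Ip
  rw [h3] at h1
  linarith

lemma Ip_nonneg {p u : ℝ} (hp : 0 < p) (hp1 : p < 1) (hu : 0 ≤ u) (hu1 : u ≤ 1) : 0 ≤ Ip p u := by
  have := Ip_ge p u 0 hp hp1 hu hu1
  simpa using this

lemma Ip_self {p : ℝ} (hp : 0 < p) (hp1 : p < 1) : Ip p p = 0 := by
  unfold Ip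
  rw [div_self hp.ne', div_self (by linarith)]
  simp

lemma Ip_one {p : ℝ} : Ip p 1 = Real.log (1 / p) := by
  unfold Ip
  simp

lemma continuous_Ip {p : ℝ} (hp : 0 < p) (hp1 : p < 1) : Continuous (Ip p) := by
  have h : Ip p = fun u => (u * Real.log u - u * Real.log p) +
      ((1 - u) * Real.log (1 - u) - (1 - u) * Real.log (1 - p)) := by
    funext u
    unfold Ip
    congr 1
    · rcases eq_or_ne u 0 with h | h
      · subst h; simp
      · rw [Real.log_div h hp.ne']; ring
    · rcases eq_or_ne (1 - u) 0 with h | h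
      · rw [h]; simp
      · rw [Real.log_div h (by linarith)]; ring
  rw [h]
  have h1 : Continuous fun u : ℝ => u * Real.log u := Real.continuous_mul_log
  have h2 : Continuous fun u : ℝ => (1 - u) * Real.log (1 - u) :=
    Real.continuous_mul_log.comp (continuous_const.sub continuous_id)
  fun_prop

lemma Ip_le {p u : ℝ} (hp : 0 < p) (hp1 : p ≤ 1 / 2) (hu : 0 ≤ u) (hu1 : u ≤ 1) :
    Ip p u ≤ Real.log (1 / p) := by
  unfold Ip
  have h1 : u * Real.log (u / p) ≤ u * Real.log (1 / p) := by
    rcases hu.eq_or_lt with h | h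
    · subst h; simp
    · apply mul_le_mul_of_nonneg_left _ hu
      apply Real.log_le_log (by positivity)
      exact div_le_div_of_nonneg_right hu1 hp.le
  have h2 : (1 - u) * Real.log ((1 - u) / (1 - p)) ≤ (1 - u) * Real.log (1 / p) := by
    have hu' : 0 ≤ 1 - u := by linarith
    rcases hu'.eq_or_lt with h | h
    · rw [← h]; simp
    · apply mul_le_mul_of_nonneg_left _ hu'
      have h1p : 0 < 1 - p := by linarith
      apply Real.log_le_log (by positivity)
      rw [div_le_div_iff₀ h1p hp]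
      nlinarith
  nlinarith

/-- For `lam ∈ [0,1]`: a linear lower bound with small slope. -/
lemma Ip_ge_small {p x lam : ℝ} (hp : 0 < p) (hp1 : p < 1) (hx : 0 ≤ x) (hx1 : p + x ≤ 1)
    (hl : 0 ≤ lam) (hl1 : lam ≤ 1) : lam * x - p * lam ^ 2 ≤ Ip p (p + x) := by
  have h := Ip_ge p (p + x) lam hp hp1 (by linarith) hx1
  have h2 : Real.exp lam ≤ 1 + lam + lam ^ 2 := by
    have := Real.abs_exp_sub_one_sub_id_le (x := lam) (by rw [abs_of_nonneg hl]; exact hl1)
    rw [abs_le] at this
    linarith [this.2]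
  nlinarith

/-- A linear lower bound for arbitrary slope. -/
lemma Ip_ge_lin {p x lam : ℝ} (hp : 0 < p) (hp1 : p < 1) (hx : 0 ≤ x) (hx1 : p + x ≤ 1)
    (hl : 0 ≤ lam) : lam * x - p * Real.exp lam ≤ Ip p (p + x) := by
  have h := Ip_ge p (p + x) lam hp hp1 (by linarith) hx1
  nlinarith

end Pool.Agent.Helper39.UT
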