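import Pool.Agent.Helper39.UT.Dom

/-!
# Finite averages and the lower bound for weighted graphs
-/

set_option autoImplicit false

open Filter Topology

namespace Pool.Agent.Helper39.UT

/-- Average over `Fin N`. -/
noncomputable def E {N : ℕ} (f : Fin N → ℝ) : ℝ := (∑ x, f x) / N

section E

variable {N : ℕ}

lemma E_add (f g : Fin N → ℝ) : E (fun x => f x + g x) = E f + E g := by
  unfold E; rw [Finset.sum_add_distrib]; ring

lemma E_sub (f g : Fin N → ℝ) : E (fun x => f x - g x) = E f - E g := by
  unfold E; rw [Finset.sum_sub_distrib]; ring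

lemma E_mul_left (c : ℝ) (f : Fin N → ℝ) : E (fun x => c * f x) = c * E f := by
  unfold E; rw [← Finset.mul_sum]; ring

lemma E_mul_right (c : ℝ) (f : Fin N → ℝ) : E (fun x => f x * c) = E f * c := by
  unfold E; rw [← Finset.sum_mul]; ring

lemma E_const (hN : 0 < N) (c : ℝ) : E (fun _ : Fin N => c) = c := by
  unfold E
  have : (N : ℝ) ≠ 0 := by exact_mod_cast hN.ne'
  simp
  field_simp

lemma E_le {f g : Fin N → ℝ} (h : ∀ x, f x ≤ g x) : E f ≤ E g := by
  unfold E
  apply div_le_div_of_nonneg_right _ (Nat.cast_nonneg N)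
  exact Finset.sum_le_sum fun x _ => h x

lemma E_nonneg {f : Fin N → ℝ} (h : ∀ x, 0 ≤ f x) : 0 ≤ E f := by
  unfold E
  apply div_nonneg _ (Nat.cast_nonneg N)
  exact Finset.sum_nonneg fun x _ => h x

lemma E_comm (f : Fin N → Fin N → ℝ) : E (fun x => E fun y => f x y) = E fun y => E fun x => f x y := by
  unfold E
  rw [← Finset.sum_div, ← Finset.sum_div, Finset.sum_comm]

lemma E_congr {f g : Fin N → ℝ} (h : ∀ x, f x = g x) : E f = E g := by
  unfold E; rw [Finset.sum_congr rfl fun x _ => h x]

lemma E_mul_sq_le (f g : Fin N → ℝ) :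
    (E fun x => f x * g x) ^ 2 ≤ (E fun x => f x ^ 2) * E fun x => g x ^ 2 := by
  unfold E
  rw [div_pow, div_mul_div_comm, ← sq]
  apply div_le_div_of_nonneg_right _ (by positivity)
  exact Finset.sum_mul_sq_le_sq_mul_sq _ _ _

lemma E_mul_sq_le2 (f g : Fin N → Fin N → ℝ) :
    (E fun x => E fun y => f x y * g x y) ^ 2 ≤
      (E fun x => E fun y => f x y ^ 2) * E fun x => E fun y => g x y ^ 2 := by
  unfold E
  simp_rw [← Finset.sum_div]
  rw [div_pow, div_pow, div_mul_div_comm, div_mul_div_comm, div_div]
  have h := Finset.sum_mul_sq_le_sq_mul_sq (Finset.univ : Finset (Fin N × Fin N))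
    (fun q => f q.1 q.2) (fun q => g q.1 q.2)
  rw [Fintype.sum_prod_type, Fintype.sum_prod_type, Fintype.sum_prod_type] at h
  rw [div_div]
  have e : (N : ℝ) ^ 2 * (N : ℝ) ^ 2 = ↑N * ↑N * (↑N * ↑N) := by ring
  rw [e]
  exact div_le_div_of_nonneg_right h (by positivity)

end E

/-- Triangle density of a weighted graph. -/
noncomputable def TN {N : ℕ} (A : Fin N → Fin N → ℝ) : ℝ :=
  E fun x => E fun y => E fun z => A x y * A y z * A x z

/-- Cherry density of a weighted graph. -/
noncomputable def CN {N : ℕ} (A : Fin N → Fin N → ℝ) : ℝ :=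
  E fun x => (E fun y => A x y) ^ 2

/-- Relative entropy of a weighted graph. -/
noncomputable def IN {N : ℕ} (p : ℝ) (A : Fin N → Fin N → ℝ) : ℝ :=
  (1 / 2) * E fun x => E fun y => Ip p (A x y)

section Cauchy

variable {N : ℕ}

/-- `T(V)² ≤ Q³`. -/
lemma TN_sq_le (V : Fin N → Fin N → ℝ) :
    TN V ^ 2 ≤ (E fun x => E fun y => V x y ^ 2) ^ 3 := by
  set Q := E fun x => E fun y => V x y ^ 2 with hQ
  have hQ0 : 0 ≤ Q := E_nonneg fun x => E_nonneg fun y => sq_nonneg _
  have h1 : TN V = E fun x => E fun y => V x y * E fun z => V y z * V x z := by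
    unfold TN
    refine E_congr fun x => E_congr fun y => ?_
    rw [← E_mul_left]
    refine E_congr fun z => by ring
  have h2 : (E fun x => E fun y => (E fun z => V y z * V x z) ^ 2) ≤ Q ^ 2 := by
    have h3 : ∀ x y, (E fun z => V y z * V x z) ^ 2 ≤
        (E fun z => V y z ^ 2) * E fun z => V x z ^ 2 := fun x y => E_mul_sq_le _ _
    calc (E fun x => E fun y => (E fun z => V y z * V x z) ^ 2)
        ≤ E fun x => E fun y => (E fun z => V y z ^ 2) * E fun z => V x z ^ 2 :=
          E_le fun x => E_le fun y => h3 x y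
      _ = E fun x => Q * E fun z => V x z ^ 2 := by
          refine E_congr fun x => ?_
          rw [E_mul_right]
      _ = Q ^ 2 := by rw [E_mul_left, ← hQ]; ring
  rw [h1]
  calc (E fun x => E fun y => V x y * E fun z => V y z * V x z) ^ 2
      ≤ Q * E fun x => E fun y => (E fun z => V y z * V x z) ^ 2 := E_mul_sq_le2 _ _
    _ ≤ Q * Q ^ 2 := mul_le_mul_of_nonneg_left h2 hQ0
    _ = Q ^ 3 := by ring

end Cauchy

section Expand

variable {N : ℕ}

/-- Expansion of the triangle density of `p + U`. -/
lemma TN_expand (hN : 0 < N) (p : ℝ) (U : Fin N → Fin N → ℝ) (hs : ∀ x y, U x y = U y x) :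
    TN (fun x y => p + U x y) = p ^ 3 + 3 * p ^ 2 * (E fun x => E fun y => U x y) +
      3 * p * (E fun x => (E fun y => U x y) ^ 2) + TN U := by
  set u := E fun x => E fun y => U x y with hu
  set D := E fun x => (E fun y => U x y) ^ 2 with hD
  have e1 : (E fun x => E fun y => E fun z : Fin N => U x y) = u := by
    refine E_congr fun x => E_congr fun y => E_const hN _
  have e2 : (E fun x : Fin N => E fun y => E fun z => U y z) = u := by
    rw [E_const hN]
  have e3 : (E fun x => E fun y : Fin N => E fun z => U x z) = u := by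
    refine E_congr fun x => by rw [E_const hN]
  have e4 : (E fun x => E fun y => E fun z => U x y * U y z) = D := by
    rw [E_comm]
    refine E_congr fun y => ?_
    have : ∀ x, (E fun z => U x y * U y z) = U y x * E fun z => U y z := fun x => by
      rw [E_mul_left, hs x y]
    rw [E_congr this, E_mul_right]; ring
  have e5 : (E fun x => E fun y => E fun z => U y z * U x z) = D := by
    rw [E_comm]
    have : ∀ y, (E fun x => E fun z => U y z * U x z) = E fun z => U z y * E fun x => U z x := by
      intro y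
      rw [E_comm]
      refine E_congr fun z => ?_
      rw [E_mul_left, hs y z]
      congr 1
      exact E_congr fun x => hs x z
    rw [E_congr this, E_comm]
    refine E_congr fun z => ?_
    rw [E_mul_right]; ring
  have e6 : (E fun x => E fun y => E fun z => U x y * U x z) = D := by
    refine E_congr fun x => ?_
    have : ∀ y, (E fun z => U x y * U x z) = U x y * E fun z => U x z := fun y => E_mul_left _ _
    rw [E_congr this, E_mul_right]; ring
  have key : ∀ x y z, (p + U x y) * (p + U y z) * (p + U x z) =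
      p ^ 3 + p ^ 2 * U x y + p ^ 2 * U y z + p ^ 2 * U x z + p * (U x y * U y z) +
      p * (U y z * U x z) + p * (U x y * U x z) + U x y * U y z * U x z := by
    intro x y z; ring
  have h : TN (fun x y => p + U x y) = p ^ 3 + p ^ 2 * u + p ^ 2 * u + p ^ 2 * u + p * D +
      p * D + p * D + TN U := by
    unfold TN
    have step : ∀ F1 F2 F3 F4 F5 F6 F7 : Fin N → Fin N → Fin N → ℝ,
        (E fun x => E fun y => E fun z => p ^ 3 + p ^ 2 * F1 x y z + p ^ 2 * F2 x y z +
          p ^ 2 * F3 x y z + p * F4 x y z + p * F5 x y z + p * F6 x y z + F7 x y z) =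
        p ^ 3 + p ^ 2 * (E fun x => E fun y => E fun z => F1 x y z) +
          p ^ 2 * (E fun x => E fun y => E fun z => F2 x y z) +
          p ^ 2 * (E fun x => E fun y => E fun z => F3 x y z) +
          p * (E fun x => E fun y => E fun z => F4 x y z) +
          p * (E fun x => E fun y => E fun z => F5 x y z) +
          p * (E fun x => E fun y => E fun z => F6 x y z) +
          (E fun x => E fun y => E fun z => F7 x y z) := by
      intro F1 F2 F3 F4 F5 F6 F7
      simp_rw [E_add, E_mul_left, E_const hN]
    simp_rw [key]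
    rw [step, e1, e2, e3, e4, e5, e6]
  rw [h]; ring

end Expand

end Pool.Agent.Helper39.UT
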