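import Pool.Agent.Helper39.UT.Limit

/-!
# Two different minimisers
-/

set_option autoImplicit false

open MeasureTheory Set Filter Topology

namespace Pool.Agent.Helper39.UT

/-- The elementary dichotomy. -/
lemma dichotomy {q θ κ s : ℝ} (hq : 0 ≤ q) (hθ : 0 ≤ θ) (hs1 : 5 / 4 ≤ s) (hs2 : s ≤ 7 / 4)
    (h1 : s ^ 3 ≤ 3 * θ + q ^ 3 + 1 / 1000) (h2 : θ + q ^ 2 / 2 - 1 / 1000 ≤ κ)
    (h3 : κ ≤ (1001 / 1000) ^ 2 * (s ^ 2 / 2)) (h4 : κ ≤ 1001 / 1000 * (s ^ 3 / 3)) :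
    (3 / 5 ≤ θ ∨ θ ≤ 9 / 20) ∧ (s = 5 / 4 → 3 / 5 ≤ θ) ∧ (s = 7 / 4 → θ ≤ 9 / 20) := by
  have hs3 : (125:ℝ) / 64 ≤ s ^ 3 := by
    have := pow_le_pow_left₀ (by norm_num) hs1 3
    norm_num at this; linarith
  have hs3' : s ^ 3 ≤ 343 / 64 := by
    have := pow_le_pow_left₀ (by linarith) hs2 3
    norm_num at this; linarith
  have hs2' : s ^ 2 ≤ 49 / 16 := by
    have := pow_le_pow_left₀ (by linarith) hs2 2
    norm_num at this; linarith
  have key : q ^ 2 * (3 / 2 - q) ≤ 94 / 10000 := by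
    have : q ^ 2 * (3 / 2 - q) = 3 / 2 * q ^ 2 - q ^ 3 := by ring
    rw [this]
    linarith
  rcases le_total q (7 / 5) with hqs | hqs
  · -- q small
    have hq2 : q ^ 2 ≤ 94 / 1000 := by nlinarith [sq_nonneg q]
    have hq1 : q ≤ 31 / 100 := by nlinarith
    have hq3 : q ^ 3 ≤ 3 / 100 := by
      have : q ^ 3 = q ^ 2 * q := by ring
      rw [this]
      nlinarith [sq_nonneg q]
    have hθ' : 3 / 5 ≤ θ := by linarith
    refine ⟨Or.inl hθ', fun _ => hθ', fun hs => ?_⟩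
    exfalso
    rw [hs] at h1 h3
    norm_num at h1 h3
    nlinarith
  · have hq2 : 1495 / 1000 ≤ q := by
      by_contra hcon
      rw [not_le] at hcon
      have : 49 / 25 ≤ q ^ 2 := by nlinarith
      nlinarith
    have hq3 : 2235 / 1000 ≤ q ^ 2 := by nlinarith
    have hθ' : θ ≤ 9 / 20 := by
      norm_num at h3
      linarith
    refine ⟨Or.inr hθ', fun hs => ?_, fun _ => hθ'⟩
    exfalso
    rw [hs] at h4
    norm_num at h4
    linarith

/-- All the facts about minimisers needed for the final argument. -/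
theorem exists_good_p : ∃ p L : ℝ, 0 < p ∧ p ≤ 1 / 2000 ∧ 0 < L ∧ Real.log (1 / p) = L ∧
    p * L ≤ 1 / 200 ∧
    ∀ s : ℝ, 5 / 4 ≤ s → s ≤ 7 / 4 → ∀ V, IsM p V → IsMin p (p ^ 3 * (1 + s ^ 3)) V →
      IG p V ≤ 2 * p ^ 2 * L ∧
      (CG V ≠ 3 / 2 * p ^ 2) ∧ (s = 5 / 4 → 3 / 2 * p ^ 2 ≤ CG V) ∧
      (s = 7 / 4 → CG V ≤ 3 / 2 * p ^ 2) := by
  obtain ⟨L, hlow, hp', hpL, hL⟩ := ((lower_graphon (1 / 1000) (by norm_num) (by norm_num)).and
    ((ev_exp_le 1 (1 / 2000) one_pos (by norm_num)).and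
    ((ev_exp_mul_le 1 (1 / 200) one_pos (by norm_num)).and (eventually_gt_atTop 0)))).exists
  rw [one_mul] at hp' hpL
  set p := Real.exp (-L) with hpdef
  have hp : 0 < p := Real.exp_pos _
  have hp1 : p < 1 := by linarith
  have hlog : Real.log (1 / p) = L := by
    rw [hpdef, one_div, ← Real.exp_neg, Real.log_exp, neg_neg]
  refine ⟨p, L, hp, hp', hL, hlog, hpL, ?_⟩
  intro s hs1 hs2 V hV hmin
  have hs0 : 0 < s := by linarith
  have hs2' : s ^ 2 ≤ 49 / 16 := by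
    have := pow_le_pow_left₀ (by linarith) hs2 2
    norm_num at this; linarith
  have hs3' : s ^ 3 ≤ 343 / 64 := by
    have := pow_le_pow_left₀ (by linarith) hs2 3
    norm_num at this; linarith
  -- clique
  have hcl : IG p V ≤ (1001 / 1000) ^ 2 * (s ^ 2 / 2) * (p ^ 2 * L) := by
    set a := 1001 / 1000 * s * p with ha
    have ha0 : 0 ≤ a := by positivity
    have ha1 : a ≤ 1 := by rw [ha]; nlinarith
    have h1 := TG_clique hp hp1 ha0 ha1
    have h2 : p ^ 3 * (1 + s ^ 3) ≤ p ^ 3 + (1 - p) ^ 3 * a ^ 3 := by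
      have h3 : 1 ≤ (1 - p) * (1001 / 1000) := by linarith
      have h4 : 1 ≤ ((1 - p) * (1001 / 1000)) ^ 3 := one_le_pow₀ h3
      have h5 : (1 - p) ^ 3 * a ^ 3 = ((1 - p) * (1001 / 1000)) ^ 3 * (s ^ 3 * p ^ 3) := by
        rw [ha]; ring
      rw [h5]
      have h6 : 0 ≤ s ^ 3 * p ^ 3 := by positivity
      nlinarith
    have h3 := hmin.min _ (isGr_clique (a := a) hp hp1) (h2.trans h1)
    rw [IG_clique hp hp1 ha0 ha1, hlog] at h3
    refine h3.trans (le_of_eq ?_)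
    rw [ha]; ring
  -- hub
  have hhub : IG p V ≤ 1001 / 1000 * (s ^ 3 / 3) * (p ^ 2 * L) := by
    set a := 1001 / 1000 * (s ^ 3 / 3) * p ^ 2 with ha
    have ha0 : 0 ≤ a := by positivity
    have hp2 : p ^ 2 ≤ 1 / 2000 := by nlinarith
    have ha1 : a ≤ 1 := by rw [ha]; nlinarith
    have h1 := TG_hub hp (by linarith) ha0 ha1
    have h2 : p ^ 3 * (1 + s ^ 3) ≤ p ^ 3 + 3 * (p - p ^ 3) * a := by
      have h5 : 3 * (p - p ^ 3) * a = ((1 - p ^ 2) * (1001 / 1000)) * (s ^ 3 * p ^ 3) := by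
        rw [ha]; ring
      rw [h5]
      have h6 : 0 ≤ s ^ 3 * p ^ 3 := by positivity
      have h7 : 1 ≤ (1 - p ^ 2) * (1001 / 1000) := by linarith
      nlinarith
    have h3 := hmin.min _ (isGr_hub (a := a) hp hp1) (h2.trans h1)
    refine h3.trans ((IG_hub hp hp1 ha0 ha1).trans (le_of_eq ?_))
    rw [hlog, ha]; ring
  have hpp : 0 < p ^ 2 * L := by positivity
  have hI2 : IG p V ≤ 2 * p ^ 2 * L := by
    refine hcl.trans ?_
    have : (1001 / 1000) ^ 2 * (s ^ 2 / 2) ≤ 2 := by norm_num; linarith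
    nlinarith
  refine ⟨hI2, ?_⟩
  obtain ⟨q, hq0, hq1, hq2⟩ := hlow V hV.toIsGr hV.ge (by nlinarith)
  set θ := CG V / p ^ 2 - 1 with hθ
  have hθ0 : 0 ≤ θ := by
    have h1 : p ^ 2 ≤ CG V := by
      have e : p ^ 2 = ∫ _q : ℝ × ℝ × ℝ, p ^ 2 ∂(μ.prod (μ.prod μ)) := by simp
      rw [e]
      refine integral_mono (integrable_const _) ?_ fun q => ?_
      · refine Integrable.of_bound (hV.toIsGr.meas12.mul hV.toIsGr.meas13).aestronglyMeasurable 1
          (Eventually.of_forall fun q => ?_)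
        have := mul3_bound (hV.bd q.1 q.2.1) (hV.bd q.1 q.2.2) ⟨zero_le_one, le_refl 1⟩
        rw [mul_one] at this
        rw [Real.norm_of_nonneg this.1]
        exact this.2
      · simp only
        rw [sq]
        exact mul_le_mul (hV.ge _ _) (hV.ge _ _) hp.le (hp.le.trans (hV.ge _ _))
    rw [hθ, sub_nonneg, le_div_iff₀ (by positivity)]
    linarith
  set κ := IG p V / (p ^ 2 * L) with hκ
  have g1 : s ^ 3 ≤ 3 * θ + q ^ 3 + 1 / 1000 := by
    have h1 := hmin.feas.trans hq1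
    have h2 : 1 + s ^ 3 ≤ 1 + 3 * θ + q ^ 3 + 1 / 1000 :=
      le_of_mul_le_mul_left h1 (by positivity)
    linarith
  have g2 : θ + q ^ 2 / 2 - 1 / 1000 ≤ κ := by
    rw [hκ, le_div_iff₀ hpp]
    linarith
  have g3 : κ ≤ (1001 / 1000) ^ 2 * (s ^ 2 / 2) := by
    rw [hκ, div_le_iff₀ hpp]; exact hcl
  have g4 : κ ≤ 1001 / 1000 * (s ^ 3 / 3) := by
    rw [hκ, div_le_iff₀ hpp]; exact hhub
  obtain ⟨d1, d2, d3⟩ := dichotomy hq0 hθ0 hs1 hs2 g1 g2 g3 g4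
  have hC : CG V = p ^ 2 * (1 + θ) := by
    rw [hθ]; field_simp; ring
  have hp2 : 0 < p ^ 2 := by positivity
  refine ⟨?_, ?_, ?_⟩
  · intro h
    rw [hC] at h
    have h2 : 1 + θ = 3 / 2 := by
      have : p ^ 2 * (1 + θ) = p ^ 2 * (3 / 2) := by linarith
      exact mul_left_cancel₀ hp2.ne' this
    rcases d1 with h3 | h3 <;> linarith
  · intro hs
    have := d2 hs
    rw [hC]; nlinarith
  · intro hs
    have := d3 hs
    rw [hC]; nlinarith

/-- **Main theorem**: there are `p` and `t` in the broken phase with two minimisers having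
different cherry densities. -/
theorem exists_two_min : ∃ p t : ℝ, 0 < p ∧ p < 1 ∧ p ^ 3 < t ∧ t < 1 ∧
    ∃ W₁ W₂ : ℝ → ℝ → ℝ, IsMin p t W₁ ∧ IsMin p t W₂ ∧ CG W₁ ≠ CG W₂ ∧
      IG p W₁ < IG p (fun _ _ => t ^ ((1:ℝ) / 3)) := by
  obtain ⟨p, L, hp, hp', hL, hlog, hpL, hmain⟩ := exists_good_p
  have hp1 : p < 1 := by linarith
  set t : ℝ → ℝ := fun s => p ^ 3 * (1 + s ^ 3) with ht
  have htc : Continuous t := by fun_prop
  have ht1 : ∀ s : ℝ, 5 / 4 ≤ s → s ≤ 7 / 4 → t s < 1 := by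
    intro s hs1 hs2
    have hs3' : s ^ 3 ≤ 343 / 64 := by
      have := pow_le_pow_left₀ (by linarith) hs2 3
      norm_num at this; linarith
    have hp3 : p ^ 3 ≤ 1 / 2000 := by
      have : p ^ 3 ≤ p := by nlinarith [sq_nonneg p]
      linarith
    have : 0 < p ^ 3 := by positivity
    simp only [ht]
    nlinarith
  set Hub : Set ℝ := {s | s ∈ Icc (5 / 4 : ℝ) (7 / 4) ∧ ∃ V, IsM p V ∧ IsMin p (t s) V ∧
    3 / 2 * p ^ 2 ≤ CG V} with hHub
  set Clq : Set ℝ := {s | s ∈ Icc (5 / 4 : ℝ) (7 / 4) ∧ ∃ V, IsM p V ∧ IsMin p (t s) V ∧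
    CG V ≤ 3 / 2 * p ^ 2} with hClq
  have hHubc : IsClosed Hub := by
    refine IsSeqClosed.isClosed ?_
    intro x x' hx hxx
    have hxm : x' ∈ Icc (5 / 4 : ℝ) (7 / 4) :=
      isClosed_Icc.mem_of_tendsto hxx (Eventually.of_forall fun n => (hx n).1)
    choose V hV hmin hC using fun n => (hx n).2
    obtain ⟨V', hV', hmin', φ, hφ, hlim⟩ := min_limit hp hp1 ((htc.tendsto x').comp hxx)
      (ht1 x' hxm.1 hxm.2) V hV hmin
    exact ⟨hxm, V', hV', hmin', ge_of_tendsto' hlim fun n => hC (φ n)⟩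
  have hClqc : IsClosed Clq := by
    refine IsSeqClosed.isClosed ?_
    intro x x' hx hxx
    have hxm : x' ∈ Icc (5 / 4 : ℝ) (7 / 4) :=
      isClosed_Icc.mem_of_tendsto hxx (Eventually.of_forall fun n => (hx n).1)
    choose V hV hmin hC using fun n => (hx n).2
    obtain ⟨V', hV', hmin', φ, hφ, hlim⟩ := min_limit hp hp1 ((htc.tendsto x').comp hxx)
      (ht1 x' hxm.1 hxm.2) V hV hmin
    exact ⟨hxm, V', hV', hmin', le_of_tendsto' hlim fun n => hC (φ n)⟩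
  have hcover : Icc (5 / 4 : ℝ) (7 / 4) ⊆ Hub ∪ Clq := by
    intro s hs
    obtain ⟨V, hV, hmin⟩ := exists_min hp hp1 (ht1 s hs.1 hs.2).le
    rcases le_total (3 / 2 * p ^ 2) (CG V) with h | h
    · exact Or.inl ⟨hs, V, hV, hmin, h⟩
    · exact Or.inr ⟨hs, V, hV, hmin, h⟩
  have hne1 : (Icc (5 / 4 : ℝ) (7 / 4) ∩ Hub).Nonempty := by
    have hmem : (5 / 4 : ℝ) ∈ Icc (5 / 4 : ℝ) (7 / 4) := by constructor <;> norm_num
    obtain ⟨V, hV, hmin⟩ := exists_min hp hp1 (ht1 _ hmem.1 hmem.2).le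
    exact ⟨5 / 4, hmem, hmem, V, hV, hmin, (hmain _ hmem.1 hmem.2 V hV hmin).2.2.1 rfl⟩
  have hne2 : (Icc (5 / 4 : ℝ) (7 / 4) ∩ Clq).Nonempty := by
    have hmem : (7 / 4 : ℝ) ∈ Icc (5 / 4 : ℝ) (7 / 4) := by constructor <;> norm_num
    obtain ⟨V, hV, hmin⟩ := exists_min hp hp1 (ht1 _ hmem.1 hmem.2).le
    exact ⟨7 / 4, hmem, hmem, V, hV, hmin, (hmain _ hmem.1 hmem.2 V hV hmin).2.2.2 rfl⟩
  obtain ⟨s, hs, ⟨-, V₁, hV₁, hm₁, hC₁⟩, -, V₂, hV₂, hm₂, hC₂⟩ :=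
    (isPreconnected_closed_iff.mp isPreconnected_Icc) Hub Clq hHubc hClqc hcover hne1 hne2
  obtain ⟨hI, hne, -, -⟩ := hmain s hs.1 hs.2 V₁ hV₁ hm₁
  obtain ⟨-, hne', -, -⟩ := hmain s hs.1 hs.2 V₂ hV₂ hm₂
  have hs3 : (125:ℝ) / 64 ≤ s ^ 3 := by
    have := pow_le_pow_left₀ (by norm_num) hs.1 3
    norm_num at this; linarith
  have hp3 : 0 < p ^ 3 := by positivity
  have ht0 : p ^ 3 < t s := by simp only [ht]; nlinarith
  refine ⟨p, t s, hp, hp1, ht0, ht1 s hs.1 hs.2, V₁, V₂, hm₁, hm₂, ?_, ?_⟩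
  · intro h
    have : CG V₁ = 3 / 2 * p ^ 2 := le_antisymm (h ▸ hC₂) hC₁
    exact hne this
  · -- broken symmetry
    set c := t s ^ ((1:ℝ) / 3) with hc
    have hts : 0 ≤ t s := by linarith
    have hc3 : c ^ 3 = t s := by
      rw [hc, ← Real.rpow_natCast, ← Real.rpow_mul hts]; norm_num
    have hc0 : 0 ≤ c := Real.rpow_nonneg hts _
    have hc1 : c ≤ 1 := Real.rpow_le_one hts (ht1 s hs.1 hs.2).le (by norm_num)
    have hcp : 7 / 5 * p ≤ c := by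
      apply le_of_pow_le_pow_left₀ (n := 3) (by norm_num) hc0
      rw [hc3]
      simp only [ht]
      have : (7 / 5 * p) ^ 3 = p ^ 3 * (343 / 125) := by ring
      rw [this]
      apply mul_le_mul_of_nonneg_left _ hp3.le
      linarith
    have hIc : IG p (fun _ _ => c) = 1 / 2 * Ip p c := by simp [IG]
    rw [hIc]
    have h1 := Ip_ge p c (1 / 4) hp hp1 hc0 hc1
    have h2 : Real.exp (1 / 4 : ℝ) ≤ 1 + 1 / 4 + (1 / 4) ^ 2 := by
      have := Real.abs_exp_sub_one_sub_id_le (x := 1 / 4) (by rw [abs_of_nonneg] <;> norm_num)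
      rw [abs_le] at this
      linarith [this.2]
    have h3 : p * (Real.exp (1 / 4) - 1) ≤ p * (5 / 16) := by
      apply mul_le_mul_of_nonneg_left _ hp.le
      linarith
    have h4 : 2 * p ^ 2 * L ≤ 2 * p * (1 / 200) := by
      have : 2 * p ^ 2 * L = 2 * p * (p * L) := by ring
      rw [this]
      exact mul_le_mul_of_nonneg_left hpL (by positivity)
    nlinarith

end Pool.Agent.Helper39.UT
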