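import Pool.Agent.Helper39.UT.Ent

/-!
# Graphons, functionals and their continuity under a.e. convergence
-/

set_option autoImplicit false

open MeasureTheory Set Filter Topology

namespace Pool.Agent.Helper39.UT

/-- Lebesgue measure on `[0,1]`. -/
noncomputable abbrev μ : Measure ℝ := volume.restrict (Icc (0:ℝ) 1)

instance : IsProbabilityMeasure μ := ⟨by simp [μ]⟩

/-- Graphons (as functions on the whole plane). -/
structure IsGr (W : ℝ → ℝ → ℝ) : Prop where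
  meas : Measurable (Function.uncurry W)
  symm : ∀ x y, W x y = W y x
  bd : ∀ x y, 0 ≤ W x y ∧ W x y ≤ 1

/-- Triangle density. -/
noncomputable def TG (W : ℝ → ℝ → ℝ) : ℝ :=
  ∫ q, W q.1 q.2.1 * W q.2.1 q.2.2 * W q.1 q.2.2 ∂(μ.prod (μ.prod μ))

/-- Cherry density. -/
noncomputable def CG (W : ℝ → ℝ → ℝ) : ℝ :=
  ∫ q, W q.1 q.2.1 * W q.1 q.2.2 ∂(μ.prod (μ.prod μ))

/-- Relative entropy. -/
noncomputable def IG (p : ℝ) (W : ℝ → ℝ → ℝ) : ℝ :=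
  (1 / 2) * ∫ q, Ip p (W q.1 q.2) ∂(μ.prod μ)

lemma Ip_bounded {p : ℝ} (hp : 0 < p) (hp1 : p < 1) : ∃ M : ℝ, 0 ≤ M ∧
    ∀ u : ℝ, 0 ≤ u → u ≤ 1 → |Ip p u| ≤ M := by
  obtain ⟨M, hM⟩ := isCompact_Icc.exists_bound_of_continuousOn
    (continuous_Ip hp hp1).continuousOn (s := Icc (0:ℝ) 1)
  refine ⟨M, (norm_nonneg _).trans (hM 0 (by simp)), fun u h0 h1 => ?_⟩
  exact hM u ⟨h0, h1⟩

lemma mp12 : MeasurePreserving (fun q : ℝ × ℝ × ℝ => (q.1, q.2.1)) (μ.prod (μ.prod μ))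
    (μ.prod μ) :=
  (MeasurePreserving.id μ).prod measurePreserving_fst

lemma mp13 : MeasurePreserving (fun q : ℝ × ℝ × ℝ => (q.1, q.2.2)) (μ.prod (μ.prod μ))
    (μ.prod μ) :=
  (MeasurePreserving.id μ).prod measurePreserving_snd

lemma mp23 : MeasurePreserving (fun q : ℝ × ℝ × ℝ => (q.2.1, q.2.2)) (μ.prod (μ.prod μ))
    (μ.prod μ) :=
  measurePreserving_snd

lemma IsGr.meas12 {W : ℝ → ℝ → ℝ} (h : IsGr W) :
    Measurable fun q : ℝ × ℝ × ℝ => W q.1 q.2.1 :=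
  h.meas.comp (by fun_prop : Measurable fun q : ℝ × ℝ × ℝ => (q.1, q.2.1))

lemma IsGr.meas13 {W : ℝ → ℝ → ℝ} (h : IsGr W) :
    Measurable fun q : ℝ × ℝ × ℝ => W q.1 q.2.2 :=
  h.meas.comp (by fun_prop : Measurable fun q : ℝ × ℝ × ℝ => (q.1, q.2.2))

lemma IsGr.meas23 {W : ℝ → ℝ → ℝ} (h : IsGr W) :
    Measurable fun q : ℝ × ℝ × ℝ => W q.2.1 q.2.2 :=
  h.meas.comp (by fun_prop : Measurable fun q : ℝ × ℝ × ℝ => (q.2.1, q.2.2))

lemma IsGr.meas2 {W : ℝ → ℝ → ℝ} (h : IsGr W) :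
    Measurable fun q : ℝ × ℝ => W q.1 q.2 := h.meas

lemma tendsto_IG {p : ℝ} (hp : 0 < p) (hp1 : p < 1) {W : ℕ → ℝ → ℝ → ℝ} {V : ℝ → ℝ → ℝ}
    (hW : ∀ n, IsGr (W n))
    (h : ∀ᵐ q ∂(μ.prod μ), Tendsto (fun n => W n q.1 q.2) atTop (𝓝 (V q.1 q.2))) :
    Tendsto (fun n => IG p (W n)) atTop (𝓝 (IG p V)) := by
  obtain ⟨M, _, hM⟩ := Ip_bounded hp hp1
  unfold IG
  apply Tendsto.const_mul
  refine tendsto_integral_of_dominated_convergence (fun _ => M) ?_ (integrable_const M) ?_ ?_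
  · intro n
    exact ((continuous_Ip hp hp1).measurable.comp (hW n).meas2).aestronglyMeasurable
  · intro n
    refine Eventually.of_forall fun q => ?_
    exact hM _ ((hW n).bd _ _).1 ((hW n).bd _ _).2
  · filter_upwards [h] with q hq
    exact ((continuous_Ip hp hp1).tendsto _).comp hq

lemma mul3_bound {a b c : ℝ} (ha : 0 ≤ a ∧ a ≤ 1) (hb : 0 ≤ b ∧ b ≤ 1) (hc : 0 ≤ c ∧ c ≤ 1) :
    0 ≤ a * b * c ∧ a * b * c ≤ 1 := by
  obtain ⟨a0, a1⟩ := ha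
  obtain ⟨b0, b1⟩ := hb
  obtain ⟨c0, c1⟩ := hc
  have h1 : 0 ≤ a * b := mul_nonneg a0 b0
  have h2 : a * b ≤ 1 := mul_le_one₀ a1 b0 b1
  exact ⟨mul_nonneg h1 c0, mul_le_one₀ h2 c0 c1⟩

lemma tendsto_TG {W : ℕ → ℝ → ℝ → ℝ} {V : ℝ → ℝ → ℝ}
    (hW : ∀ n, IsGr (W n))
    (h : ∀ᵐ q ∂(μ.prod μ), Tendsto (fun n => W n q.1 q.2) atTop (𝓝 (V q.1 q.2))) :
    Tendsto (fun n => TG (W n)) atTop (𝓝 (TG V)) := by
  unfold TG
  refine tendsto_integral_of_dominated_convergence (fun _ => 1) ?_ (integrable_const 1) ?_ ?_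
  · intro n
    exact (((hW n).meas12.mul (hW n).meas23).mul (hW n).meas13).aestronglyMeasurable
  · intro n
    refine Eventually.of_forall fun q => ?_
    have := mul3_bound ((hW n).bd q.1 q.2.1) ((hW n).bd q.2.1 q.2.2) ((hW n).bd q.1 q.2.2)
    rw [Real.norm_of_nonneg this.1]
    exact this.2
  · have h12 := mp12.quasiMeasurePreserving.ae h
    have h13 := mp13.quasiMeasurePreserving.ae h
    have h23 := mp23.quasiMeasurePreserving.ae h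
    filter_upwards [h12, h13, h23] with q h1 h2 h3
    exact (h1.mul h3).mul h2

lemma tendsto_CG {W : ℕ → ℝ → ℝ → ℝ} {V : ℝ → ℝ → ℝ}
    (hW : ∀ n, IsGr (W n))
    (h : ∀ᵐ q ∂(μ.prod μ), Tendsto (fun n => W n q.1 q.2) atTop (𝓝 (V q.1 q.2))) :
    Tendsto (fun n => CG (W n)) atTop (𝓝 (CG V)) := by
  unfold CG
  refine tendsto_integral_of_dominated_convergence (fun _ => 1) ?_ (integrable_const 1) ?_ ?_
  · intro n
    exact ((hW n).meas12.mul (hW n).meas13).aestronglyMeasurable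
  · intro n
    refine Eventually.of_forall fun q => ?_
    have := mul3_bound ((hW n).bd q.1 q.2.1) ((hW n).bd q.1 q.2.2) ⟨zero_le_one, le_refl 1⟩
    rw [mul_one] at this
    rw [Real.norm_of_nonneg this.1]
    exact this.2
  · have h12 := mp12.quasiMeasurePreserving.ae h
    have h13 := mp13.quasiMeasurePreserving.ae h
    filter_upwards [h12, h13] with q h1 h2
    exact h1.mul h2

lemma IG_nonneg {p : ℝ} (hp : 0 < p) (hp1 : p < 1) {W : ℝ → ℝ → ℝ} (hW : IsGr W) :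
    0 ≤ IG p W := by
  unfold IG
  have : 0 ≤ ∫ q, Ip p (W q.1 q.2) ∂(μ.prod μ) :=
    integral_nonneg fun q => Ip_nonneg hp hp1 (hW.bd _ _).1 (hW.bd _ _).2
  positivity

/-! ### The monotone class and Helly's selection theorem -/

/-- Graphons with values in `[p,1]` which are nonincreasing in each variable. -/
structure IsM (p : ℝ) (W : ℝ → ℝ → ℝ) : Prop extends IsGr W where
  ge : ∀ x y, p ≤ W x y
  anti : ∀ y, Antitone fun x => W x y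

lemma IsM.anti2 {p : ℝ} {W : ℝ → ℝ → ℝ} (h : IsM p W) {x x' y y' : ℝ} (hx : x ≤ x')
    (hy : y ≤ y') : W x' y' ≤ W x y := by
  calc W x' y' ≤ W x y' := h.anti y' hx
    _ = W y' x := h.symm _ _
    _ ≤ W y x := h.anti x hy
    _ = W x y := h.symm _ _

/-- Shift estimate. -/
lemma shift_estimate {G : ℝ × ℝ → ℝ} (hG : Measurable G) (h0 : ∀ q, 0 ≤ G q)
    (h1 : ∀ q, G q ≤ 1) {ε : ℝ} (hε : 0 < ε) (hε1 : ε < 1) :
    ∫ q, G q ∂(μ.prod μ) - ∫ q, G (q + (ε, ε)) ∂(μ.prod μ) ≤ 2 * ε := by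
  have hmeas : (μ.prod μ) = (volume : Measure (ℝ × ℝ)).restrict (Icc 0 1 ×ˢ Icc 0 1) := by
    rw [Measure.prod_restrict]; rfl
  rw [hmeas]
  have hint : ∀ {s : Set (ℝ × ℝ)}, MeasurableSet s → volume s < ⊤ → IntegrableOn G s := by
    intro s hs hfin
    refine Measure.integrableOn_of_bounded (M := 1) hfin.ne hG.aestronglyMeasurable ?_
    refine Eventually.of_forall fun q => ?_
    rw [Real.norm_of_nonneg (h0 q)]; exact h1 q
  have e1 : ∫ q in Icc (0:ℝ) 1 ×ˢ Icc (0:ℝ) 1, G (q + (ε, ε)) =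
      ∫ q in Icc ε (1 + ε) ×ˢ Icc ε (1 + ε), G q := by
    have hpre : (fun q : ℝ × ℝ => q + (ε, ε)) ⁻¹' (Icc ε (1 + ε) ×ˢ Icc ε (1 + ε)) =
        Icc (0:ℝ) 1 ×ˢ Icc (0:ℝ) 1 := by
      ext ⟨a, b⟩
      simp only [mem_preimage, mem_prod, mem_Icc, Prod.mk_add_mk]
      constructor
      · rintro ⟨⟨h1, h2⟩, h3, h4⟩
        exact ⟨⟨by linarith, by linarith⟩, by linarith, by linarith⟩
      · rintro ⟨⟨h1, h2⟩, h3, h4⟩
        exact ⟨⟨by linarith, by linarith⟩, by linarith, by linarith⟩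
    rw [← hpre]
    exact (measurePreserving_add_right (volume : Measure (ℝ × ℝ)) (ε, ε)).setIntegral_preimage_emb
      (MeasurableEquiv.addRight (ε, ε)).measurableEmbedding G _
  rw [e1]
  have hS : MeasurableSet (Icc ε 1 ×ˢ Icc ε 1 : Set (ℝ × ℝ)) := measurableSet_Icc.prod measurableSet_Icc
  have hfin1 : volume (Icc (0:ℝ) 1 ×ˢ Icc (0:ℝ) 1 : Set (ℝ × ℝ)) < ⊤ := by
    rw [Measure.volume_eq_prod, Measure.prod_prod]; simp
  have hfin2 : volume (Icc ε (1 + ε) ×ˢ Icc ε (1 + ε) : Set (ℝ × ℝ)) < ⊤ := by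
    rw [Measure.volume_eq_prod, Measure.prod_prod]; simp
  have hsub1 : (Icc ε 1 ×ˢ Icc ε 1 : Set (ℝ × ℝ)) ⊆ Icc ε (1 + ε) ×ˢ Icc ε (1 + ε) :=
    prod_mono (Icc_subset_Icc le_rfl (by linarith)) (Icc_subset_Icc le_rfl (by linarith))
  have hsub2 : (Icc ε 1 ×ˢ Icc ε 1 : Set (ℝ × ℝ)) ⊆ Icc 0 1 ×ˢ Icc 0 1 :=
    prod_mono (Icc_subset_Icc hε.le le_rfl) (Icc_subset_Icc hε.le le_rfl)
  have hM1 : MeasurableSet (Icc (0:ℝ) 1 ×ˢ Icc (0:ℝ) 1 : Set (ℝ × ℝ)) :=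
    measurableSet_Icc.prod measurableSet_Icc
  have hM2 : MeasurableSet (Icc ε (1 + ε) ×ˢ Icc ε (1 + ε) : Set (ℝ × ℝ)) :=
    measurableSet_Icc.prod measurableSet_Icc
  have e2 : ∫ q in Icc ε 1 ×ˢ Icc ε 1, G q ≤ ∫ q in Icc ε (1 + ε) ×ˢ Icc ε (1 + ε), G q :=
    setIntegral_mono_set (hint hM2 hfin2) (Eventually.of_forall fun q => h0 q)
      (LE.le.eventuallyLE hsub1)
  have e3 : (∫ q in Icc (0:ℝ) 1 ×ˢ Icc (0:ℝ) 1, G q) = (∫ q in Icc ε 1 ×ˢ Icc ε 1, G q) +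
      ∫ q in (Icc (0:ℝ) 1 ×ˢ Icc (0:ℝ) 1) \ (Icc ε 1 ×ˢ Icc ε 1), G q := by
    have := integral_inter_add_sdiff hS (hint hM1 hfin1)
    rw [inter_eq_self_of_subset_right hsub2] at this
    linarith
  have e4 : ∫ q in (Icc (0:ℝ) 1 ×ˢ Icc (0:ℝ) 1) \ (Icc ε 1 ×ˢ Icc ε 1), G q ≤ 2 * ε := by
    have hfin : volume ((Icc (0:ℝ) 1 ×ˢ Icc (0:ℝ) 1) \ (Icc ε 1 ×ˢ Icc ε 1)) < ⊤ :=
      (measure_mono sdiff_subset).trans_lt hfin1
    have hvol : (volume ((Icc (0:ℝ) 1 ×ˢ Icc (0:ℝ) 1) \ (Icc ε 1 ×ˢ Icc ε 1))).toReal =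
        1 - (1 - ε) ^ 2 := by
      rw [measure_sdiff hsub2 hS.nullMeasurableSet
        ((measure_mono hsub2).trans_lt hfin1).ne]
      rw [Measure.volume_eq_prod, Measure.prod_prod, Measure.prod_prod]
      simp only [Real.volume_Icc, sub_zero, ENNReal.ofReal_one, mul_one]
      rw [← ENNReal.ofReal_mul (by linarith), ← ENNReal.ofReal_one,
        ← ENNReal.ofReal_sub _ (by nlinarith), ENNReal.toReal_ofReal (by nlinarith)]
      ring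
    calc ∫ q in (Icc (0:ℝ) 1 ×ˢ Icc (0:ℝ) 1) \ (Icc ε 1 ×ˢ Icc ε 1), G q
        ≤ ∫ q in (Icc (0:ℝ) 1 ×ˢ Icc (0:ℝ) 1) \ (Icc ε 1 ×ˢ Icc ε 1), (1:ℝ) := by
          apply setIntegral_mono_on (hint (hM1.diff hS) hfin) _ (hM1.diff hS)
            (fun q _ => h1 q)
          exact integrableOn_const hfin.ne
      _ = 1 - (1 - ε) ^ 2 := by
          rw [setIntegral_const, Measure.real, hvol]; simp
      _ ≤ 2 * ε := by nlinarith
  have hfinal : (∫ q in Icc (0:ℝ) 1 ×ˢ Icc (0:ℝ) 1, G q) -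
      ∫ q in Icc ε (1 + ε) ×ˢ Icc ε (1 + ε), G q ≤ 2 * ε := by linarith
  exact hfinal

end Pool.Agent.Helper39.UT
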