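import Pool.Agent.Helper39.UT.Graphon

/-!
# Helly's selection theorem for monotone graphons
-/

set_option autoImplicit false

open MeasureTheory Set Filter Topology

namespace Pool.Agent.Helper39.UT

theorem helly {p : ℝ} (W : ℕ → ℝ → ℝ → ℝ) (hW : ∀ n, IsM p (W n)) :
    ∃ V, IsM p V ∧ ∃ φ : ℕ → ℕ, StrictMono φ ∧
      ∀ᵐ q ∂(μ.prod μ), Tendsto (fun n => W (φ n) q.1 q.2) atTop (𝓝 (V q.1 q.2)) := by
  set f : ℕ → (ℚ × ℚ → Icc (0:ℝ) 1) := fun n r => ⟨W n r.1 r.2, (hW n).bd _ _⟩ with hf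
  obtain ⟨a, φ, hφ, ha⟩ := SeqCompactSpace.tendsto_subseq f
  have hw : ∀ q r : ℚ, Tendsto (fun n => W (φ n) q r) atTop (𝓝 (a (q, r) : ℝ)) := by
    intro q r
    have h1 := (tendsto_pi_nhds.mp ha) (q, r)
    exact (continuous_subtype_val.tendsto _).comp h1
  set U : ℝ × ℝ → ℝ := fun q => limsup (fun n => W (φ n) q.1 q.2) atTop with hU
  set Lo : ℝ × ℝ → ℝ := fun q => liminf (fun n => W (φ n) q.1 q.2) atTop with hLo
  have bu : ∀ x y, IsBoundedUnder (· ≤ ·) atTop fun n => W (φ n) x y := fun x y =>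
    isBoundedUnder_of ⟨1, fun n => ((hW _).bd _ _).2⟩
  have bl : ∀ x y, IsBoundedUnder (· ≥ ·) atTop fun n => W (φ n) x y := fun x y =>
    isBoundedUnder_of ⟨0, fun n => ((hW _).bd _ _).1⟩
  have cu : ∀ x y, IsCoboundedUnder (· ≤ ·) atTop fun n => W (φ n) x y := fun x y =>
    (bl x y).isCoboundedUnder_le
  have cl : ∀ x y, IsCoboundedUnder (· ≥ ·) atTop fun n => W (φ n) x y := fun x y =>
    (bu x y).isCoboundedUnder_ge
  have hUmeas : Measurable U := Measurable.limsup fun n => (hW (φ n)).meas2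
  have hLmeas : Measurable Lo := Measurable.liminf fun n => (hW (φ n)).meas2
  have hLU : ∀ q, Lo q ≤ U q := fun q => liminf_le_limsup (bu _ _) (bl _ _)
  have hU1 : ∀ q, U q ≤ 1 := fun q =>
    limsup_le_of_le (cu _ _) (Eventually.of_forall fun n => ((hW _).bd _ _).2)
  have hUp : ∀ q, p ≤ U q := fun q =>
    le_limsup_of_le (bu _ _) fun b hb => by
      obtain ⟨n, hn⟩ := hb.exists
      exact ((hW _).ge _ _).trans hn
  have hU0 : ∀ q, 0 ≤ U q := fun q =>
    le_limsup_of_le (bu _ _) fun b hb => by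
      obtain ⟨n, hn⟩ := hb.exists
      exact ((hW _).bd _ _).1.trans hn
  have hLo0 : ∀ q, 0 ≤ Lo q := fun q =>
    le_liminf_of_le (cl _ _) (Eventually.of_forall fun n => ((hW _).bd _ _).1)
  have key : ∀ (q : ℝ × ℝ) (ε : ℝ), 0 < ε → U (q + (ε, ε)) ≤ Lo q := by
    rintro ⟨x, y⟩ ε hε
    obtain ⟨s, hs1, hs2⟩ := exists_rat_btwn (show x < x + ε by linarith)
    obtain ⟨t, ht1, ht2⟩ := exists_rat_btwn (show y < y + ε by linarith)
    have h1 : U ((x, y) + (ε, ε)) ≤ (a (s, t) : ℝ) := by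
      rw [← (hw s t).limsup_eq]
      refine limsup_le_limsup (Eventually.of_forall fun n => ?_) (cu _ _) (bu _ _)
      exact (hW (φ n)).anti2 hs2.le ht2.le
    have h2 : (a (s, t) : ℝ) ≤ Lo (x, y) := by
      rw [← (hw s t).liminf_eq]
      refine liminf_le_liminf (Eventually.of_forall fun n => ?_) (bl _ _) (cl _ _)
      exact (hW (φ n)).anti2 hs1.le ht1.le
    exact h1.trans h2
  have hUint : Integrable U (μ.prod μ) := by
    refine Integrable.of_bound hUmeas.aestronglyMeasurable 1 (Eventually.of_forall fun q => ?_)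
    rw [Real.norm_of_nonneg (hU0 q)]; exact hU1 q
  have hLint : Integrable Lo (μ.prod μ) := by
    refine Integrable.of_bound hLmeas.aestronglyMeasurable 1 (Eventually.of_forall fun q => ?_)
    rw [Real.norm_of_nonneg (hLo0 q)]; exact (hLU q).trans (hU1 q)
  have hsmall : ∀ ε : ℝ, 0 < ε → ε < 1 → ∫ q, (U q - Lo q) ∂(μ.prod μ) ≤ 2 * ε := by
    intro ε hε hε1
    have hm : Measurable fun q : ℝ × ℝ => U (q + (ε, ε)) :=
      hUmeas.comp (by fun_prop)
    have hi : Integrable (fun q : ℝ × ℝ => U (q + (ε, ε))) (μ.prod μ) := by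
      refine Integrable.of_bound hm.aestronglyMeasurable 1 (Eventually.of_forall fun q => ?_)
      rw [Real.norm_of_nonneg (hU0 _)]; exact hU1 _
    have h1 := shift_estimate hUmeas hU0 hU1 hε hε1
    rw [integral_sub hUint hLint]
    have h2 : ∫ q, U (q + (ε, ε)) ∂(μ.prod μ) ≤ ∫ q, Lo q ∂(μ.prod μ) :=
      integral_mono hi hLint fun q => key q ε hε
    linarith
  have hzero : ∫ q, (U q - Lo q) ∂(μ.prod μ) = 0 := by
    apply le_antisymm
    · apply le_of_forall_pos_le_add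
      intro ε hε
      have := hsmall (min (ε / 2) (1 / 2)) (by positivity)
        (lt_of_le_of_lt (min_le_right _ _) (by norm_num))
      have h2 := min_le_left (ε / 2) (1 / 2)
      linarith
    · exact integral_nonneg fun q => sub_nonneg.mpr (hLU q)
  have hae : ∀ᵐ q ∂(μ.prod μ), U q = Lo q := by
    have := (integral_eq_zero_iff_of_nonneg (fun q => sub_nonneg.mpr (hLU q))
      (hUint.sub hLint)).mp hzero
    filter_upwards [this] with q hq
    have : U q - Lo q = 0 := hq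
    linarith
  refine ⟨fun x y => U (x, y), ⟨⟨hUmeas, ?_, ?_⟩, ?_, ?_⟩, φ, hφ, ?_⟩
  · intro x y
    simp only [hU]
    congr 1
    funext n
    exact (hW _).symm _ _
  · exact fun x y => ⟨hU0 _, hU1 _⟩
  · exact fun x y => hUp _
  · intro y x x' hx
    exact limsup_le_limsup (Eventually.of_forall fun n => (hW (φ n)).anti y hx) (cu _ _) (bu _ _)
  · filter_upwards [hae] with q hq
    exact tendsto_of_liminf_eq_limsup hq.symm rfl (bu _ _) (bl _ _)

end Pool.Agent.Helper39.UT
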