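import Pool.Agent.Helper39.UT.LowerFin

/-!
# The asymptotic lower bound for weighted graphs
-/

set_option autoImplicit false

open Filter Topology

namespace Pool.Agent.Helper39.UT

theorem lower_fin (η : ℝ) (hη : 0 < η) (hη1 : η ≤ 1) : ∀ᶠ L : ℝ in atTop,
    ∀ (N : ℕ) (A : Fin N → Fin N → ℝ), 0 < N → (∀ x y, A x y = A y x) →
      (∀ x y, Real.exp (-L) ≤ A x y ∧ A x y ≤ 1) →
      IN (Real.exp (-L)) A ≤ 3 * Real.exp (-L) ^ 2 * L →
      ∃ q : ℝ, 0 ≤ q ∧
        TN A ≤ Real.exp (-L) ^ 3 * (1 + 3 * (CN A / Real.exp (-L) ^ 2 - 1) + q ^ 3 + η) ∧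
        Real.exp (-L) ^ 2 * L * ((CN A / Real.exp (-L) ^ 2 - 1) + q ^ 2 / 2 - η) ≤
          IN (Real.exp (-L)) A := by
  set b := η / 48 with hb
  set ε := η ^ 2 / 4000 with hε
  have hb0 : 0 < b := by positivity
  have hε0 : 0 < ε := by positivity
  have hε1 : ε ≤ 1 / 4000 := by rw [hε]; nlinarith
  have hsq : 0 < ε * b ^ 2 / 72 := by positivity
  filter_upwards [dom_quad ε hε0 (by linarith), dom_small b hb0 (by linarith),
    dom_hub ε b hε0 (by linarith) hb0, dom_mean ε hε0 (by linarith),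
    ev_exp_le 1 (1 / 2) one_pos (by norm_num), ev_exp_le 2 (ε * b ^ 2 / 72) two_pos hsq,
    eventually_gt_atTop 0] with L h1 h2 h3 h4 h5 h6 hL
  intro N A hN hs hA hI
  rw [one_mul] at h5
  have hp : 0 < Real.exp (-L) := Real.exp_pos _
  have hlog : Real.log (1 / Real.exp (-L)) = L := by
    rw [one_div, ← Real.exp_neg, Real.log_exp, neg_neg]
  have hp2 : Real.exp (-(2 * L)) = Real.exp (-L) ^ 2 := by
    rw [← Real.exp_nat_mul]; congr 1; push_cast; ring
  obtain ⟨q, hq0, hT, hIq⟩ := lower_core hN L (Real.exp (-L)) ε b hL hp h5 hε0 (by linarith) hb0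
    hlog h1 h2 h3 h4 (by rw [hp2] at h6; linarith) A hs hA hI
  refine ⟨q, hq0, hT.trans ?_, le_trans ?_ hIq⟩
  · apply mul_le_mul_of_nonneg_left _ (by positivity)
    have e1 : 36 * ε / b = 36 * 48 / 4000 * η := by
      rw [hε, hb]; field_simp
    have e2 : ε ≤ η / 4000 := by rw [hε]; nlinarith
    linarith
  · apply mul_le_mul_of_nonneg_left _ (by positivity)
    have e2 : ε ≤ η / 4000 := by rw [hε]; nlinarith
    linarith

end Pool.Agent.Helper39.UT
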