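import Pool.Agent.Helper39.UT.Reduction
import Pool.Agent.Helper39.UT.LowerEv

/-!
# Limits of minimisers, test graphons and the lower bound for graphons
-/

set_option autoImplicit false

open MeasureTheory Set Filter Topology

namespace Pool.Agent.Helper39.UT

/-! ### Perturbation -/

/-- Move `U` towards the complete graphon. -/
noncomputable def pert (ε : ℝ) (U : ℝ → ℝ → ℝ) (x y : ℝ) : ℝ := (1 - ε) * U x y + ε

lemma isGr_pert {ε : ℝ} (h0 : 0 ≤ ε) (h1 : ε ≤ 1) {U : ℝ → ℝ → ℝ} (hU : IsGr U) :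
    IsGr (pert ε U) := by
  refine ⟨(hU.meas.const_mul (1 - ε)).add_const ε, fun x y => by simp only [pert]; rw [hU.symm],
    fun x y => ?_⟩
  have := hU.bd x y
  unfold pert
  constructor
  · have : 0 ≤ (1 - ε) * U x y := mul_nonneg (by linarith) this.1
    linarith
  · nlinarith [this.2]

lemma pert_ineq {a b c ε : ℝ} (ha : 0 ≤ a ∧ a ≤ 1) (hb : 0 ≤ b ∧ b ≤ 1) (hc : 0 ≤ c ∧ c ≤ 1)
    (h0 : 0 ≤ ε) (h1 : ε ≤ 1) :
    a * b * c + ε ^ 3 * (1 - a * b * c) ≤
      ((1 - ε) * a + ε) * ((1 - ε) * b + ε) * ((1 - ε) * c + ε) := by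
  obtain ⟨a0, a1⟩ := ha
  obtain ⟨b0, b1⟩ := hb
  obtain ⟨c0, c1⟩ := hc
  have hab0 : 0 ≤ a * b := mul_nonneg a0 b0
  have hab1 : a * b ≤ 1 := mul_le_one₀ a1 b0 b1
  have e1 : a * b + ε ^ 2 * (1 - a * b) ≤ ((1 - ε) * a + ε) * ((1 - ε) * b + ε) := by
    have : ((1 - ε) * a + ε) * ((1 - ε) * b + ε) - (a * b + ε ^ 2 * (1 - a * b)) =
        ε * (1 - ε) * (a * (1 - b) + b * (1 - a)) := by ring
    have h2 : 0 ≤ ε * (1 - ε) * (a * (1 - b) + b * (1 - a)) :=
      mul_nonneg (mul_nonneg h0 (by linarith))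
        (add_nonneg (mul_nonneg a0 (by linarith)) (mul_nonneg b0 (by linarith)))
    linarith
  have hc' : 0 ≤ (1 - ε) * c + ε := add_nonneg (mul_nonneg (by linarith) c0) h0
  have e2 : (a * b + ε ^ 2 * (1 - a * b)) * ((1 - ε) * c + ε) ≤
      ((1 - ε) * a + ε) * ((1 - ε) * b + ε) * ((1 - ε) * c + ε) :=
    mul_le_mul_of_nonneg_right e1 hc'
  refine le_trans ?_ e2
  have e3 : (a * b + ε ^ 2 * (1 - a * b)) * ((1 - ε) * c + ε) -
      (a * b * c + ε ^ 3 * (1 - a * b * c)) =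
      ε * (a * b) * (1 - c) * (1 - ε ^ 2) + ε ^ 2 * (1 - a * b) * c * (1 - ε) := by ring
  have h3 : 0 ≤ 1 - ε ^ 2 := by nlinarith
  have h4 : 0 ≤ ε * (a * b) * (1 - c) * (1 - ε ^ 2) :=
    mul_nonneg (mul_nonneg (mul_nonneg h0 hab0) (by linarith)) h3
  have h5 : 0 ≤ ε ^ 2 * (1 - a * b) * c * (1 - ε) :=
    mul_nonneg (mul_nonneg (mul_nonneg (sq_nonneg _) (by linarith)) c0) (by linarith)
  linarith

lemma TG_pert {ε : ℝ} (h0 : 0 ≤ ε) (h1 : ε ≤ 1) {U : ℝ → ℝ → ℝ} (hU : IsGr U) :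
    TG U + ε ^ 3 * (1 - TG U) ≤ TG (pert ε U) := by
  set f : ℝ × ℝ × ℝ → ℝ := fun q => U q.1 q.2.1 * U q.2.1 q.2.2 * U q.1 q.2.2 with hf
  have hint : Integrable f (μ.prod (μ.prod μ)) := hU.TG_integrable
  have e1 : TG U + ε ^ 3 * (1 - TG U) = ∫ q : ℝ × ℝ × ℝ,
      ((1 - ε ^ 3) * f q + ε ^ 3) ∂(μ.prod (μ.prod μ)) := by
    rw [integral_add (hint.const_mul _) (integrable_const _), integral_const_mul, integral_const,
      probReal_univ, one_smul]
    have : TG U = ∫ q, f q ∂(μ.prod (μ.prod μ)) := rfl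
    rw [this]; ring
  rw [e1]
  refine integral_mono ((hint.const_mul _).add (integrable_const _))
    (isGr_pert h0 h1 hU).TG_integrable fun q => ?_
  have h := pert_ineq (hU.bd q.1 q.2.1) (hU.bd q.2.1 q.2.2) (hU.bd q.1 q.2.2) h0 h1
  have h2 : (1 - ε ^ 3) * f q + ε ^ 3 = U q.1 q.2.1 * U q.2.1 q.2.2 * U q.1 q.2.2 +
      ε ^ 3 * (1 - U q.1 q.2.1 * U q.2.1 q.2.2 * U q.1 q.2.2) := by simp only [hf]; ring
  exact h2.trans_le h

/-- Limits of minimisers are minimisers. -/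
theorem min_limit {p : ℝ} (hp : 0 < p) (hp1 : p < 1) {t : ℕ → ℝ} {t' : ℝ}
    (ht : Tendsto t atTop (𝓝 t')) (ht' : t' < 1) (W : ℕ → ℝ → ℝ → ℝ) (hW : ∀ n, IsM p (W n))
    (hm : ∀ n, IsMin p (t n) (W n)) :
    ∃ V, IsM p V ∧ IsMin p t' V ∧ ∃ φ : ℕ → ℕ, StrictMono φ ∧
      Tendsto (fun n => CG (W (φ n))) atTop (𝓝 (CG V)) := by
  obtain ⟨V, hV, φ, hφ, hae⟩ := helly W hW
  have t1 := tendsto_TG (fun n => (hW (φ n)).toIsGr) hae
  have t2 := tendsto_IG hp hp1 (fun n => (hW (φ n)).toIsGr) hae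
  have t3 := tendsto_CG (fun n => (hW (φ n)).toIsGr) hae
  have tφ : Tendsto (fun n => t (φ n)) atTop (𝓝 t') := ht.comp hφ.tendsto_atTop
  refine ⟨V, hV, ⟨hV.toIsGr, le_of_tendsto_of_tendsto' tφ t1 fun n => (hm (φ n)).feas, ?_⟩,
    φ, hφ, t3⟩
  intro U hU hTU
  set e : ℕ → ℝ := fun m => 1 / ((m : ℝ) + 1) with he
  have he0 : ∀ m, 0 < e m := fun m => by simp only [he]; positivity
  have he1 : ∀ m, e m ≤ 1 := fun m => by
    simp only [he]
    rw [div_le_one (by positivity)]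
    have : (0:ℝ) ≤ m := Nat.cast_nonneg m
    linarith
  have hstep : ∀ m, IG p V ≤ IG p (pert (e m) U) := by
    intro m
    have h1 := TG_pert (he0 m).le (he1 m) hU
    have h2 := TG_le_one hU
    have h3 : t' < TG (pert (e m) U) := by
      have h4 : 0 < e m ^ 3 := by have := he0 m; positivity
      rcases h2.lt_or_eq with h | h
      · nlinarith
      · rw [h] at h1; linarith
    have h5 : ∀ᶠ n in atTop, t (φ n) < TG (pert (e m) U) := tφ.eventually (eventually_lt_nhds h3)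
    refine le_of_tendsto t2 ?_
    filter_upwards [h5] with n hn
    exact (hm (φ n)).min _ (isGr_pert (he0 m).le (he1 m) hU) hn.le
  have hlim : Tendsto (fun m => IG p (pert (e m) U)) atTop (𝓝 (IG p U)) := by
    refine tendsto_IG hp hp1 (fun m => isGr_pert (he0 m).le (he1 m) hU)
      (Eventually.of_forall fun q => ?_)
    have h1 : Tendsto e atTop (𝓝 0) := tendsto_one_div_add_atTop_nhds_zero_nat (𝕜 := ℝ)
    have h2 : Tendsto (fun m => (1 - e m) * U q.1 q.2 + e m) atTop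
        (𝓝 ((1 - 0) * U q.1 q.2 + 0)) := ((h1.const_sub 1).mul_const _).add h1
    simpa [pert] using h2
  exact ge_of_tendsto' hlim hstep

/-! ### The lower bound for graphons -/

theorem lower_graphon (η : ℝ) (hη : 0 < η) (hη1 : η ≤ 1) : ∀ᶠ L : ℝ in atTop,
    ∀ W : ℝ → ℝ → ℝ, IsGr W → (∀ x y, Real.exp (-L) ≤ W x y) →
      IG (Real.exp (-L)) W ≤ 5 / 2 * Real.exp (-L) ^ 2 * L →
      ∃ q : ℝ, 0 ≤ q ∧
        TG W ≤ Real.exp (-L) ^ 3 * (1 + 3 * (CG W / Real.exp (-L) ^ 2 - 1) + q ^ 3 + η) ∧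
        Real.exp (-L) ^ 2 * L * ((CG W / Real.exp (-L) ^ 2 - 1) + q ^ 2 / 2 - η) ≤
          IG (Real.exp (-L)) W := by
  filter_upwards [lower_fin (η / 2) (by positivity) (by linarith), eventually_gt_atTop 0]
    with L h hL
  intro W hW hWp hI
  set p := Real.exp (-L) with hpdef
  have hp : 0 < p := Real.exp_pos _
  have hp1 : p < 1 := by rw [hpdef, Real.exp_lt_one_iff]; linarith
  set δ := min (p ^ 3 * η / 8) (min (p ^ 2 * L * η / (2 * (1 + L))) (p ^ 2 * L / 2)) with hδ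
  have hδ0 : 0 < δ := by
    rw [hδ]
    refine lt_min (by positivity) (lt_min (by positivity) (by positivity))
  have hδ1 : δ ≤ p ^ 3 * η / 8 := min_le_left _ _
  have hδ2 : δ ≤ p ^ 2 * L * η / (2 * (1 + L)) := (min_le_right _ _).trans (min_le_left _ _)
  have hδ3 : δ ≤ p ^ 2 * L / 2 := (min_le_right _ _).trans (min_le_right _ _)
  obtain ⟨N, A, hN, -, hs, hA, hT, hC, hIA⟩ := exists_matrix hp hp1 hp.le hp1.le hW hWp hδ0 0
  obtain ⟨q, hq0, hq1, hq2⟩ := h N A hN hs hA (by linarith [(abs_lt.mp hIA).2])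
  refine ⟨q, hq0, ?_, ?_⟩
  · have h1 := (abs_lt.mp hT).1
    have h2 := (abs_lt.mp hC).2
    have h3 : CN A / p ^ 2 ≤ CG W / p ^ 2 + δ / p ^ 2 := by
      rw [← add_div]; exact div_le_div_of_nonneg_right (by linarith) (by positivity)
    have h4 : p ^ 3 * (1 + 3 * (CN A / p ^ 2 - 1) + q ^ 3 + η / 2) ≤
        p ^ 3 * (1 + 3 * (CG W / p ^ 2 + δ / p ^ 2 - 1) + q ^ 3 + η / 2) := by
      apply mul_le_mul_of_nonneg_left _ (by positivity)
      linarith
    have h5 : p ^ 3 * (1 + 3 * (CG W / p ^ 2 + δ / p ^ 2 - 1) + q ^ 3 + η / 2) =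
        p ^ 3 * (1 + 3 * (CG W / p ^ 2 - 1) + q ^ 3 + η) + 3 * (p * δ) - p ^ 3 * η / 2 := by
      field_simp
      ring
    have h6 : p * δ ≤ δ := by nlinarith
    linarith
  · have h1 := (abs_lt.mp hIA).2
    have h2 := (abs_lt.mp hC).1
    have h3 : CG W / p ^ 2 - δ / p ^ 2 ≤ CN A / p ^ 2 := by
      rw [← sub_div]; exact div_le_div_of_nonneg_right (by linarith) (by positivity)
    have h4 : p ^ 2 * L * ((CG W / p ^ 2 - δ / p ^ 2 - 1) + q ^ 2 / 2 - η / 2) ≤
        p ^ 2 * L * ((CN A / p ^ 2 - 1) + q ^ 2 / 2 - η / 2) := by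
      apply mul_le_mul_of_nonneg_left _ (by positivity)
      linarith
    have h5 : p ^ 2 * L * ((CG W / p ^ 2 - δ / p ^ 2 - 1) + q ^ 2 / 2 - η / 2) =
        p ^ 2 * L * ((CG W / p ^ 2 - 1) + q ^ 2 / 2 - η) + p ^ 2 * L * η / 2 - L * δ := by
      field_simp
      ring
    have h6 : δ * (1 + L) ≤ p ^ 2 * L * η / 2 := by
      rw [le_div_iff₀ (by positivity)] at hδ2
      linarith
    linarith

/-! ### Test graphons -/

/-- Indicator of `(-∞, a]`. -/
noncomputable def chi (a x : ℝ) : ℝ := if x ≤ a then 1 else 0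

lemma measurable_chi (a : ℝ) : Measurable (chi a) :=
  Measurable.ite measurableSet_Iic measurable_const measurable_const

lemma chi01 (a x : ℝ) : chi a x = 0 ∨ chi a x = 1 := by
  unfold chi; split_ifs <;> simp

lemma integral_chi {a : ℝ} (h0 : 0 ≤ a) (h1 : a ≤ 1) : ∫ x, chi a x ∂μ = a := by
  have h : (fun x => chi a x) = (Iic a).indicator (fun _ => (1:ℝ)) := by
    funext x
    unfold chi indicator
    simp
  rw [h, integral_indicator measurableSet_Iic, Measure.restrict_restrict measurableSet_Iic]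
  have h2 : Iic a ∩ Icc (0:ℝ) 1 = Icc 0 a := by
    ext x
    simp only [mem_inter_iff, mem_Iic, mem_Icc]
    constructor
    · rintro ⟨h, h', _⟩; exact ⟨h', h⟩
    · rintro ⟨h, h'⟩; exact ⟨h', h, h'.trans h1⟩
  rw [h2]
  simp [h0]

/-- The clique graphon. -/
noncomputable def clique (p a x y : ℝ) : ℝ := p + (1 - p) * (chi a x * chi a y)

lemma isGr_clique {p a : ℝ} (hp : 0 < p) (hp1 : p < 1) : IsGr (clique p a) := by
  refine ⟨?_, fun x y => by unfold clique; ring, fun x y => ?_⟩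
  · have h1 : Measurable fun q : ℝ × ℝ => chi a q.1 := (measurable_chi a).comp measurable_fst
    have h2 : Measurable fun q : ℝ × ℝ => chi a q.2 := (measurable_chi a).comp measurable_snd
    exact ((h1.mul h2).const_mul (1 - p)).const_add p
  · unfold clique
    rcases chi01 a x with h | h <;> rcases chi01 a y with h' | h' <;> rw [h, h'] <;>
      constructor <;> nlinarith

lemma chi_integrable (a : ℝ) : Integrable (chi a) μ := by
  refine Integrable.of_bound (measurable_chi a).aestronglyMeasurable 1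
    (Eventually.of_forall fun x => ?_)
  rcases chi01 a x with h | h <;> rw [h] <;> norm_num

lemma IG_clique {p a : ℝ} (hp : 0 < p) (hp1 : p < 1) (h0 : 0 ≤ a) (h1 : a ≤ 1) :
    IG p (clique p a) = 1 / 2 * a ^ 2 * Real.log (1 / p) := by
  unfold IG
  have h : ∀ q : ℝ × ℝ, Ip p (clique p a q.1 q.2) =
      (chi a q.1 * chi a q.2) * Real.log (1 / p) := by
    intro q
    unfold clique
    rcases chi01 a q.1 with h | h <;> rcases chi01 a q.2 with h' | h' <;> rw [h, h']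
    · simp [Ip_self hp hp1]
    · simp [Ip_self hp hp1]
    · simp [Ip_self hp hp1]
    · have : p + (1 - p) * (1 * 1) = 1 := by ring
      rw [this, Ip_one]; ring
  simp_rw [h]
  rw [integral_mul_const, integral_prod_mul (chi a) (chi a), integral_chi h0 h1]
  ring

lemma TG_clique {p a : ℝ} (hp : 0 < p) (hp1 : p < 1) (h0 : 0 ≤ a) (h1 : a ≤ 1) :
    p ^ 3 + (1 - p) ^ 3 * a ^ 3 ≤ TG (clique p a) := by
  have hint : Integrable (fun q : ℝ × ℝ × ℝ => chi a q.1 * (chi a q.2.1 * chi a q.2.2))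
      (μ.prod (μ.prod μ)) :=
    (chi_integrable a).mul_prod ((chi_integrable a).mul_prod (chi_integrable a))
  have e1 : p ^ 3 + (1 - p) ^ 3 * a ^ 3 = ∫ q : ℝ × ℝ × ℝ,
      (p ^ 3 + (1 - p) ^ 3 * (chi a q.1 * (chi a q.2.1 * chi a q.2.2))) ∂(μ.prod (μ.prod μ)) := by
    rw [integral_add (integrable_const _) (hint.const_mul _), integral_const_mul,
      integral_prod_mul (chi a) (fun q : ℝ × ℝ => chi a q.1 * chi a q.2),
      integral_prod_mul (chi a) (chi a), integral_chi h0 h1, integral_const, probReal_univ,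
      one_smul]
    ring
  rw [e1]
  refine integral_mono ((integrable_const _).add (hint.const_mul _))
    (isGr_clique hp hp1).TG_integrable fun q => ?_
  simp only [clique]
  have hp1' : 0 < 1 - p := by linarith
  have hp3 : p ^ 3 ≤ 1 := pow_le_one₀ hp.le hp1.le
  rcases chi01 a q.1 with h | h <;> rcases chi01 a q.2.1 with h' | h' <;>
    rcases chi01 a q.2.2 with h'' | h'' <;> rw [h, h', h'']
  · nlinarith
  · nlinarith
  · nlinarith
  · have : p ^ 3 ≤ p ^ 2 := by nlinarith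
    nlinarith
  · nlinarith
  · have : p ^ 3 ≤ p ^ 2 := by nlinarith
    nlinarith
  · have : p ^ 3 ≤ p ^ 2 := by nlinarith
    nlinarith
  · have : p ^ 3 + (1 - p) ^ 3 ≤ 1 := by nlinarith
    nlinarith

/-- The hub graphon. -/
noncomputable def hub (p a x y : ℝ) : ℝ := p + (1 - p) * (chi a x + chi a y - chi a x * chi a y)

lemma isGr_hub {p a : ℝ} (hp : 0 < p) (hp1 : p < 1) : IsGr (hub p a) := by
  refine ⟨?_, fun x y => by unfold hub; ring, fun x y => ?_⟩
  · have h1 : Measurable fun q : ℝ × ℝ => chi a q.1 := (measurable_chi a).comp measurable_fst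
    have h2 : Measurable fun q : ℝ × ℝ => chi a q.2 := (measurable_chi a).comp measurable_snd
    exact (((h1.add h2).sub (h1.mul h2)).const_mul (1 - p)).const_add p
  · unfold hub
    rcases chi01 a x with h | h <;> rcases chi01 a y with h' | h' <;> rw [h, h'] <;>
      constructor <;> nlinarith

lemma IG_hub {p a : ℝ} (hp : 0 < p) (hp1 : p < 1) (h0 : 0 ≤ a) (h1 : a ≤ 1) :
    IG p (hub p a) ≤ a * Real.log (1 / p) := by
  have hL : 0 ≤ Real.log (1 / p) := Real.log_nonneg (by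
    rw [le_div_iff₀ hp]; linarith)
  unfold IG
  have h : ∀ q : ℝ × ℝ, Ip p (hub p a q.1 q.2) ≤
      (chi a q.1 + chi a q.2) * Real.log (1 / p) := by
    intro q
    unfold hub
    rcases chi01 a q.1 with h | h <;> rcases chi01 a q.2 with h' | h' <;> rw [h, h']
    · simp [Ip_self hp hp1]
    · have : p + (1 - p) * (0 + 1 - 0 * 1) = 1 := by ring
      rw [this, Ip_one]; linarith
    · have : p + (1 - p) * (1 + 0 - 1 * 0) = 1 := by ring
      rw [this, Ip_one]; linarith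
    · have : p + (1 - p) * (1 + 1 - 1 * 1) = 1 := by ring
      rw [this, Ip_one]; nlinarith
  have i1 : Integrable (fun q : ℝ × ℝ => chi a q.1) (μ.prod μ) := (chi_integrable a).comp_fst μ
  have i2 : Integrable (fun q : ℝ × ℝ => chi a q.2) (μ.prod μ) := (chi_integrable a).comp_snd μ
  have h2 : ∫ q : ℝ × ℝ, (chi a q.1 + chi a q.2) * Real.log (1 / p) ∂(μ.prod μ) =
      2 * a * Real.log (1 / p) := by
    rw [integral_mul_const, integral_add i1 i2]
    have e1 : ∫ q : ℝ × ℝ, chi a q.1 ∂(μ.prod μ) = a := by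
      rw [integral_fun_fst, integral_chi h0 h1]; simp
    have e2 : ∫ q : ℝ × ℝ, chi a q.2 ∂(μ.prod μ) = a := by
      rw [integral_fun_snd, integral_chi h0 h1]; simp
    rw [e1, e2]; ring
  have h3 : ∫ q, Ip p (hub p a q.1 q.2) ∂(μ.prod μ) ≤ 2 * a * Real.log (1 / p) := by
    rw [← h2]
    exact integral_mono ((isGr_hub hp hp1).IG_integrable hp hp1)
      ((i1.add i2).mul_const _) h
  linarith

lemma TG_hub {p a : ℝ} (hp : 0 < p) (hp1 : p ≤ 1 / 3) (h0 : 0 ≤ a) (h1 : a ≤ 1) :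
    p ^ 3 + 3 * (p - p ^ 3) * a ≤ TG (hub p a) := by
  have hp1' : p < 1 := by linarith
  have i1 : Integrable (fun q : ℝ × ℝ × ℝ => chi a q.1) (μ.prod (μ.prod μ)) :=
    (chi_integrable a).comp_fst _
  have i2' : Integrable (fun q : ℝ × ℝ => chi a q.1) (μ.prod μ) := (chi_integrable a).comp_fst μ
  have i3' : Integrable (fun q : ℝ × ℝ => chi a q.2) (μ.prod μ) := (chi_integrable a).comp_snd μ
  have i2 : Integrable (fun q : ℝ × ℝ × ℝ => chi a q.2.1) (μ.prod (μ.prod μ)) := i2'.comp_snd μ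
  have i3 : Integrable (fun q : ℝ × ℝ × ℝ => chi a q.2.2) (μ.prod (μ.prod μ)) := i3'.comp_snd μ
  have e1 : ∫ q : ℝ × ℝ × ℝ, chi a q.1 ∂(μ.prod (μ.prod μ)) = a := by
    rw [integral_fun_fst, integral_chi h0 h1]; simp
  have e2 : ∫ q : ℝ × ℝ × ℝ, chi a q.2.1 ∂(μ.prod (μ.prod μ)) = a := by
    rw [integral_fun_snd (fun q : ℝ × ℝ => chi a q.1), integral_fun_fst, integral_chi h0 h1]
    simp
  have e3 : ∫ q : ℝ × ℝ × ℝ, chi a q.2.2 ∂(μ.prod (μ.prod μ)) = a := by
    rw [integral_fun_snd (fun q : ℝ × ℝ => chi a q.2), integral_fun_snd, integral_chi h0 h1]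
    simp
  have hsum : Integrable (fun q : ℝ × ℝ × ℝ => chi a q.1 + chi a q.2.1 + chi a q.2.2)
      (μ.prod (μ.prod μ)) := (i1.add i2).add i3
  have e : p ^ 3 + 3 * (p - p ^ 3) * a = ∫ q : ℝ × ℝ × ℝ,
      (p ^ 3 + (p - p ^ 3) * (chi a q.1 + chi a q.2.1 + chi a q.2.2)) ∂(μ.prod (μ.prod μ)) := by
    rw [integral_add (integrable_const _) (hsum.const_mul _), integral_const_mul,
      integral_add (f := fun q : ℝ × ℝ × ℝ => chi a q.1 + chi a q.2.1) (i1.add i2) i3,
      integral_add i1 i2, e1, e2, e3, integral_const, probReal_univ, one_smul]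
    ring
  rw [e]
  refine integral_mono ((integrable_const _).add (hsum.const_mul _))
    (isGr_hub hp hp1').TG_integrable fun q => ?_
  simp only [hub]
  have hp2 : p ^ 2 ≤ 1 / 9 := by nlinarith
  have hp3 : p ^ 3 ≤ p := by nlinarith
  have hp3' : 0 < p ^ 3 := by positivity
  rcases chi01 a q.1 with h | h <;> rcases chi01 a q.2.1 with h' | h' <;>
    rcases chi01 a q.2.2 with h'' | h'' <;> rw [h, h', h''] <;> ring_nf <;> nlinarith

end Pool.Agent.Helper39.UT
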