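import Pool.Agent.Helper39.UT.Fin

/-!
# The lower bound for weighted graphs
-/

set_option autoImplicit false

open Filter Topology

namespace Pool.Agent.Helper39.UT

lemma E_le' {N : ℕ} (hN : 0 < N) {f : Fin N → ℝ} {c : ℝ} (h : ∀ x, f x ≤ c) : E f ≤ c := by
  have := E_le h
  rwa [E_const hN] at this

lemma tri_pt {wx wy wz a b c : ℝ} (hx : wx = 0 ∨ wx = 1) (hy : wy = 0 ∨ wy = 1)
    (hz : wz = 0 ∨ wz = 1) (a0 : 0 ≤ a) (a1 : a ≤ 1) (b0 : 0 ≤ b) (b1 : b ≤ 1) (c0 : 0 ≤ c)
    (c1 : c ≤ 1) : a * b * c ≤ (((1 - wx) * (1 - wy) * a) * ((1 - wy) * (1 - wz) * b) *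
      ((1 - wx) * (1 - wz) * c) + wx * b) + wy * c + wz * a := by
  have ab : a * b ≤ a := by nlinarith
  have ab' : a * b ≤ b := by nlinarith
  have ab0 : 0 ≤ a * b := mul_nonneg a0 b0
  have abc1 : a * b * c ≤ a := by nlinarith
  have abc2 : a * b * c ≤ b := by nlinarith
  have abc3 : a * b * c ≤ c := by nlinarith
  rcases hx with h | h <;> rcases hy with h' | h' <;> rcases hz with h'' | h'' <;>
    rw [h, h', h''] <;> norm_num <;> linarith

lemma cost_pt {wx wy G L V q : ℝ} (hx : wx = 0 ∨ wx = 1) (hy : wy = 0 ∨ wy = 1)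
    (hg : 0 ≤ G) (hgl : G ≤ L) (hq : q * V ^ 2 ≤ G) :
    (wx * G + wy * G) - L * (wx * wy) + q * ((1 - wx) * (1 - wy) * V) ^ 2 ≤ G := by
  rcases hx with h | h <;> rcases hy with h' | h' <;> rw [h, h'] <;> norm_num <;> linarith

lemma dom_avg {N : ℕ} (hN : 0 < N) {p : ℝ} {d r : Fin N → ℝ} (h : ∀ x, Dom p (d x) (r x)) :
    Dom p (E d) (E r) := by
  constructor
  · intro lam h0 h1
    have : E (fun x => lam * d x - p * lam ^ 2) ≤ E r := E_le fun x => (h x).1 lam h0 h1
    rwa [E_sub, E_mul_left, E_const hN] at this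
  · intro lam h0
    have : E (fun x => lam * d x - p * Real.exp lam) ≤ E r := E_le fun x => (h x).2 lam h0
    rwa [E_sub, E_mul_left, E_const hN] at this

/-- The deterministic core of the lower bound. -/
lemma lower_core {N : ℕ} (hN : 0 < N) (L p ε b : ℝ) (hL : 0 < L) (hp : 0 < p) (hp1 : p ≤ 1 / 2)
    (hε : 0 < ε) (hε1 : ε ≤ 1 / 4) (hb : 0 < b)
    (hpL : Real.log (1 / p) = L)
    (hquad : ∀ d r : ℝ, 0 ≤ d → d ≤ 1 → Dom p d r → (1 - ε) * L * d ^ 2 ≤ r)
    (hsmall : ∀ d r : ℝ, 0 ≤ d → d ≤ b → Dom p d r → L / (4 * b) * d ^ 2 ≤ r)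
    (hhub : ∀ d r : ℝ, b ≤ d → Dom p d r → (1 - 2 * ε) * L * d ≤ r)
    (hmean : ∀ u r : ℝ, r ≤ 6 * p ^ 2 * L → Dom p u r → u ≤ ε * p)
    (hpb : 72 * p ^ 2 ≤ ε * b ^ 2)
    (A : Fin N → Fin N → ℝ) (hs : ∀ x y, A x y = A y x) (hA : ∀ x y, p ≤ A x y ∧ A x y ≤ 1)
    (hI : IN p A ≤ 3 * p ^ 2 * L) :
    ∃ q : ℝ, 0 ≤ q ∧
      TN A ≤ p ^ 3 * (1 + 3 * (CN A / p ^ 2 - 1) + q ^ 3 + (3 * ε + 36 * ε / b)) ∧
      p ^ 2 * L * ((CN A / p ^ 2 - 1) + q ^ 2 / 2 - (24 * ε + 24 * b)) ≤ IN p A := by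
  classical
  have hp1' : p < 1 := by linarith
  set U : Fin N → Fin N → ℝ := fun x y => A x y - p with hU
  have hUA : A = fun x y => p + U x y := by funext x y; simp [hU]
  have hU0 : ∀ x y, 0 ≤ U x y := fun x y => by simp only [hU]; linarith [(hA x y).1]
  have hU1 : ∀ x y, p + U x y ≤ 1 := fun x y => by simp only [hU]; linarith [(hA x y).2]
  have hU1' : ∀ x y, U x y ≤ 1 := fun x y => by linarith [hU1 x y]
  have hUs : ∀ x y, U x y = U y x := fun x y => by simp only [hU]; rw [hs]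
  set d : Fin N → ℝ := fun x => E fun y => U x y with hd
  have hd0 : ∀ x, 0 ≤ d x := fun x => E_nonneg fun y => hU0 x y
  have hd1 : ∀ x, d x ≤ 1 := fun x => E_le' hN fun y => hU1' x y
  set G : Fin N → Fin N → ℝ := fun x y => Ip p (p + U x y) with hG
  have hG0 : ∀ x y, 0 ≤ G x y := fun x y =>
    Ip_nonneg hp hp1' (by linarith [hU0 x y]) (hU1 x y)
  have hGL : ∀ x y, G x y ≤ L := fun x y => by
    rw [← hpL]; exact Ip_le hp hp1 (by linarith [hU0 x y]) (hU1 x y)
  have hGs : ∀ x y, G x y = G y x := fun x y => by simp only [hG]; rw [hUs]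
  set r : Fin N → ℝ := fun x => E fun y => G x y with hr
  have hr0 : ∀ x, 0 ≤ r x := fun x => E_nonneg fun y => hG0 x y
  have hdomG : ∀ x y, Dom p (U x y) (G x y) := fun x y => dom_Ip hp hp1' (hU0 x y) (hU1 x y)
  have hdomr : ∀ x, Dom p (d x) (r x) := fun x => dom_avg hN (hdomG x)
  set u := E d with hu
  have hu0 : 0 ≤ u := E_nonneg hd0
  set R := E r with hR
  have hIR : IN p A = R / 2 := by
    rw [hUA]; unfold IN; ring
  have hR6 : R ≤ 6 * p ^ 2 * L := by linarith
  have hdomR : Dom p u R := dom_avg hN hdomr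
  have hule : u ≤ ε * p := hmean u R hR6 hdomR
  -- hubs
  set w : Fin N → ℝ := fun x => if b ≤ d x then 1 else 0 with hw
  have hw01 : ∀ x, w x = 0 ∨ w x = 1 := fun x => by
    simp only [hw]; split_ifs <;> simp
  have hw0 : ∀ x, 0 ≤ w x := fun x => by rcases hw01 x with h | h <;> rw [h] <;> norm_num
  set β := E w with hβ
  have hβ0 : 0 ≤ β := E_nonneg hw0
  have hc : 0 < 1 - 2 * ε := by linarith
  have hhubx : ∀ x, w x * ((1 - 2 * ε) * L * d x) ≤ w x * r x := by
    intro x
    by_cases h : b ≤ d x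
    · exact mul_le_mul_of_nonneg_left (hhub _ _ h (hdomr x)) (hw0 x)
    · have : w x = 0 := by simp [hw, h]
      rw [this]; simp
  have hβle : β ≤ 12 * p ^ 2 / b := by
    have h1 : ∀ x, w x * ((1 - 2 * ε) * L * b) ≤ r x := by
      intro x
      rcases hw01 x with h | h
      · rw [h, zero_mul]; exact hr0 x
      · have hbd : b ≤ d x := by
          by_contra hcon
          simp [hw, hcon] at h
        rw [h, one_mul]
        refine le_trans ?_ (hhub _ _ hbd (hdomr x))
        exact mul_le_mul_of_nonneg_left hbd (by positivity)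
    have h2 : β * ((1 - 2 * ε) * L * b) ≤ R := by
      have := E_le h1
      rwa [E_mul_right] at this
    rw [le_div_iff₀ hb]
    have h3 : β * ((1 - 2 * ε) * L * b) ≤ 6 * p ^ 2 * L := h2.trans hR6
    have h4 : 1 / 2 ≤ 1 - 2 * ε := by linarith
    have h5 : β * b * L * (1 / 2) ≤ 6 * p ^ 2 * L := by
      refine le_trans ?_ h3
      have : 0 ≤ β * b * L := by positivity
      nlinarith
    have h6 : (β * b) * (L / 2) ≤ (12 * p ^ 2) * (L / 2) := by linarith
    exact le_of_mul_le_mul_right h6 (by positivity)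
  set H := E fun x => w x * d x ^ 2 with hH
  have hH0 : 0 ≤ H := E_nonneg fun x => mul_nonneg (hw0 x) (sq_nonneg _)
  set H' := E fun x => (1 - w x) * d x ^ 2 with hH'
  set D := E fun x => d x ^ 2 with hD
  have hDH : D = H + H' := by
    rw [hD, hH, hH', ← E_add]; exact E_congr fun x => by ring
  have hH'le : H' ≤ 24 * b * p ^ 2 := by
    have h1 : ∀ x, L / (4 * b) * ((1 - w x) * d x ^ 2) ≤ r x := by
      intro x
      rcases hw01 x with h | h
      · have hbd : d x ≤ b := by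
          by_contra hcon
          simp [hw, (not_le.mp hcon).le] at h
        rw [h, sub_zero, one_mul]
        exact hsmall _ _ (hd0 x) hbd (hdomr x)
      · rw [h]; simpa using hr0 x
    have h2 : L / (4 * b) * H' ≤ R := by
      have := E_le h1
      rwa [E_mul_left] at this
    have h3 : L * H' ≤ R * (4 * b) := by
      have : L / (4 * b) * H' = L * H' / (4 * b) := by ring
      rwa [this, div_le_iff₀ (by positivity)] at h2
    have h4 : L * H' ≤ L * (24 * b * p ^ 2) := by nlinarith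
    exact le_of_mul_le_mul_left h4 hL
  -- the kernel outside hubs
  set V : Fin N → Fin N → ℝ := fun x y => (1 - w x) * (1 - w y) * U x y with hV
  set Q := E fun x => E fun y => V x y ^ 2 with hQ
  have hQ0 : 0 ≤ Q := E_nonneg fun x => E_nonneg fun y => sq_nonneg _
  -- cost
  have hcost : 2 * ((1 - 2 * ε) * L * H) - β ^ 2 * L + (1 - ε) * L * Q ≤ R := by
    have h1 : ∀ x y, (w x * G x y + w y * G x y) - L * (w x * w y) +
        (1 - ε) * L * V x y ^ 2 ≤ G x y := by
      intro x y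
      exact cost_pt (hw01 x) (hw01 y) (hG0 x y) (hGL x y)
        (hquad _ _ (hU0 x y) (hU1' x y) (hdomG x y))
    have h2 : E (fun x => E fun y => (w x * G x y + w y * G x y) - L * (w x * w y) +
        (1 - ε) * L * V x y ^ 2) ≤ R := E_le fun x => E_le fun y => h1 x y
    simp_rw [E_add, E_sub, E_add, E_mul_left] at h2
    have h3 : (E fun x => w x * E fun y => G x y) = E fun x => w x * r x := rfl
    have h4 : (E fun x => E fun y => w y * G x y) = E fun x => w x * r x := by
      rw [E_comm]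
      refine E_congr fun y => ?_
      rw [E_mul_left]
      congr 1
      exact E_congr fun x => hGs x y
    have h5 : (E fun x => w x * E w) = β ^ 2 := by rw [E_mul_right]; ring
    rw [h4] at h2
    have h6 : (1 - 2 * ε) * L * H ≤ E fun x => w x * r x := by
      rw [hH, ← E_mul_left]
      apply E_le
      intro x
      refine le_trans ?_ (hhubx x)
      have hdd : d x ^ 2 ≤ d x := by nlinarith [hd0 x, hd1 x]
      have : 0 ≤ w x * ((1 - 2 * ε) * L) := mul_nonneg (hw0 x) (by positivity)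
      nlinarith
    have h7 : (E fun x => w x * E fun y => G x y) + (E fun x => w x * r x) -
        L * (E fun x => w x * E w) + (1 - ε) * L * Q ≤ R := h2
    rw [h5, h3] at h7
    linarith
  -- triangles
  have hTU : TN U ≤ TN V + 3 * (β * u) := by
    have h1 : ∀ x y z, U x y * U y z * U x z ≤
        ((V x y * V y z * V x z + w x * U y z) + w y * U x z) + w z * U x y := by
      intro x y z
      exact tri_pt (hw01 x) (hw01 y) (hw01 z) (hU0 x y) (hU1' x y) (hU0 y z) (hU1' y z)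
        (hU0 x z) (hU1' x z)
    have h2 : TN U ≤ E fun x => E fun y => E fun z =>
        ((V x y * V y z * V x z + w x * U y z) + w y * U x z) + w z * U x y :=
      E_le fun x => E_le fun y => E_le fun z => h1 x y z
    simp_rw [E_add, E_mul_left] at h2
    have h3 : (E fun x => w x * E fun y => E fun z => U y z) = β * u := by rw [E_mul_right]
    have h3' : (E fun x => E fun y => w x * E fun z => U y z) = β * u := by
      rw [← h3]; refine E_congr fun x => ?_; rw [E_mul_left]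
    have h4 : (E fun x => E fun y => w y * E fun z => U x z) = β * u := by
      rw [E_comm, ← h3]
      refine E_congr fun y => ?_
      rw [E_mul_left]
    have h5 : (E fun x => E fun y => E fun z => w z * U x y) = β * u := by
      have : ∀ x y, (E fun z => w z * U x y) = β * U x y := fun x y => by rw [E_mul_right]
      simp_rw [this, E_mul_left]
      rfl
    have h6 : TN U ≤ TN V + β * u + β * u + β * u := by
      refine h2.trans (le_of_eq ?_)
      rw [← h3]
      have h7 : (E fun x => E fun y => E fun z => w z * U x y) = β * u := h5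
      have h8 : (E fun x => E fun y => w y * E fun z => U x z) = β * u := h4
      rw [h7, h8, h3]
      rfl
    linarith
  have hqex : ∃ q : ℝ, 0 ≤ q ∧ Q = q ^ 2 * p ^ 2 := by
    refine ⟨√Q / p, by positivity, ?_⟩
    rw [div_pow, Real.sq_sqrt hQ0]
    field_simp
  obtain ⟨q, hq0, hqQ⟩ := hqex
  have hTV : TN V ≤ q ^ 3 * p ^ 3 := by
    have h1 := TN_sq_le V
    rw [← hQ, hqQ] at h1
    have h2 : TN V ^ 2 ≤ (q ^ 3 * p ^ 3) ^ 2 := by
      refine h1.trans (le_of_eq ?_); ring
    exact le_of_abs_le (abs_le_of_sq_le_sq h2 (by positivity))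
  -- values
  have hT := TN_expand hN p U hUs
  rw [← hUA] at hT
  have hC : CN A = p ^ 2 + 2 * p * u + D := by
    rw [hUA]
    unfold CN
    have : ∀ x, (E fun y => p + U x y) ^ 2 = p ^ 2 + 2 * p * d x + d x ^ 2 := by
      intro x
      rw [E_add, E_const hN]
      ring
    simp_rw [this, E_add, E_mul_left, E_const hN]
    rfl
  have hθ : CN A / p ^ 2 - 1 = (2 * p * u + D) / p ^ 2 := by
    rw [hC]; field_simp; ring
  set θ := CN A / p ^ 2 - 1 with hθdef
  have hDθ : D = p ^ 2 * θ - 2 * p * u := by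
    rw [hθ]; field_simp; ring
  refine ⟨q, hq0, ?_, ?_⟩
  · rw [hT]
    have h1 : (E fun x => E fun y => U x y) = u := rfl
    have h2 : (E fun x => (E fun y => U x y) ^ 2) = D := rfl
    rw [h1, h2]
    have h3 : β * u ≤ 12 * p ^ 2 / b * (ε * p) := mul_le_mul hβle hule hu0 (by positivity)
    have h4 : 12 * p ^ 2 / b * (ε * p) = p ^ 3 * (12 * ε / b) := by field_simp
    have h5 : p ^ 3 * (1 + 3 * θ + q ^ 3 + (3 * ε + 36 * ε / b)) =
        p ^ 3 + 3 * p * (p ^ 2 * θ) + q ^ 3 * p ^ 3 + 3 * p ^ 2 * (ε * p) +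
          3 * (p ^ 3 * (12 * ε / b)) := by ring
    rw [h5]
    have h6 : 3 * p ^ 2 * u ≤ 3 * p ^ 2 * (ε * p) := mul_le_mul_of_nonneg_left hule (by positivity)
    have h7 : 3 * p * D ≤ 3 * p * (p ^ 2 * θ) := by
      apply mul_le_mul_of_nonneg_left _ (by positivity)
      rw [hDθ]
      have : 0 ≤ 2 * p * u := by positivity
      linarith
    linarith
  · rw [hIR]
    have hpp : 0 < p ^ 2 := by positivity
    -- β² small
    have h1 : β ^ 2 ≤ 2 * ε * p ^ 2 := by
      have h2 : β ^ 2 ≤ (12 * p ^ 2 / b) ^ 2 := pow_le_pow_left₀ hβ0 hβle 2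
      refine h2.trans ?_
      rw [div_pow, div_le_iff₀ (by positivity)]
      nlinarith [mul_le_mul_of_nonneg_right hpb hpp.le]
    have hcost' : L * (2 * ((1 - 2 * ε) * H) - 2 * ε * p ^ 2 + (1 - ε) * (q ^ 2 * p ^ 2)) ≤ R := by
      rw [← hqQ]
      have : β ^ 2 * L ≤ 2 * ε * p ^ 2 * L := mul_le_mul_of_nonneg_right h1 hL.le
      linarith
    have hub : 2 * ((1 - 2 * ε) * H) - 2 * ε * p ^ 2 + (1 - ε) * (q ^ 2 * p ^ 2) ≤ 6 * p ^ 2 := by
      have : L * (2 * ((1 - 2 * ε) * H) - 2 * ε * p ^ 2 + (1 - ε) * (q ^ 2 * p ^ 2)) ≤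
          L * (6 * p ^ 2) := by linarith
      exact le_of_mul_le_mul_left this hL
    have hq2 : 0 ≤ q ^ 2 * p ^ 2 := by positivity
    have hHle : H ≤ 8 * p ^ 2 := by nlinarith
    have hqle : q ^ 2 * p ^ 2 ≤ 10 * p ^ 2 := by nlinarith
    have hHge : p ^ 2 * θ - 2 * ε * p ^ 2 - 24 * b * p ^ 2 ≤ H := by
      have : 2 * p * u ≤ 2 * p * (ε * p) := mul_le_mul_of_nonneg_left hule (by positivity)
      have h9 : D = H + H' := hDH
      nlinarith
    have hfin : 2 * (p ^ 2 * (θ + q ^ 2 / 2 - (24 * ε + 24 * b))) ≤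
        2 * ((1 - 2 * ε) * H) - 2 * ε * p ^ 2 + (1 - ε) * (q ^ 2 * p ^ 2) := by
      nlinarith [mul_le_mul_of_nonneg_left hHle hε.le, mul_le_mul_of_nonneg_left hqle hε.le]
    have := mul_le_mul_of_nonneg_left hfin hL.le
    linarith

end Pool.Agent.Helper39.UT
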