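import Pool.Agent.Helper39.UT.Approx
import Pool.Agent.Helper39.UT.Helly
import Pool.Agent.Helper39.UT.Compress

/-!
# Reduction to monotone graphons; existence of minimisers
-/

set_option autoImplicit false

open MeasureTheory Set Filter Topology

namespace Pool.Agent.Helper39.UT

section matrices

variable {N : ℕ}

lemma TN_eq_Tri (A : Fin N → Fin N → ℝ) : TN A = Tri A / (N:ℝ) ^ 3 := by
  unfold TN Tri E
  simp_rw [← Finset.sum_div]
  rw [div_div, div_div]
  congr 1
  ring

lemma IN_eq_Cost (p : ℝ) (A : Fin N → Fin N → ℝ) : IN p A = Cost (Ip p) A / (2 * (N:ℝ) ^ 2) := by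
  unfold IN Cost E
  simp_rw [← Finset.sum_div]
  rw [div_div]
  ring

/-- Remove the diagonal. -/
noncomputable def offdiag (A : Fin N → Fin N → ℝ) (x y : Fin N) : ℝ := if x = y then 0 else A x y

lemma good_offdiag {A : Fin N → Fin N → ℝ} (hs : ∀ x y, A x y = A y x)
    (hA : ∀ x y, 0 ≤ A x y ∧ A x y ≤ 1) : Good (offdiag A) := by
  refine ⟨fun x y => ?_, fun x => by simp [offdiag], fun x y => ?_⟩
  · unfold offdiag
    by_cases h : x = y
    · simp [h]
    · rw [if_neg h, if_neg (Ne.symm h), hs]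
  · unfold offdiag
    split_ifs
    · simp
    · exact hA x y

lemma sum_ite_eq_bound {M : ℝ} {f : Fin N → Fin N → ℝ} (hf : ∀ x y, f x y ≤ if x = y then M else 0) :
    ∑ x, ∑ y, f x y ≤ N * M := by
  calc ∑ x, ∑ y, f x y ≤ ∑ x : Fin N, ∑ y : Fin N, (if x = y then M else 0) :=
        Finset.sum_le_sum fun x _ => Finset.sum_le_sum fun y _ => hf x y
    _ = N * M := by simp

lemma tri_offdiag {A : Fin N → Fin N → ℝ} (hA : ∀ x y, 0 ≤ A x y ∧ A x y ≤ 1) :
    Tri A ≤ Tri (offdiag A) + 3 * (N:ℝ) ^ 2 := by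
  have h1 : ∀ x y z : Fin N, A x y * A y z * A x z ≤
      offdiag A x y * offdiag A y z * offdiag A x z +
        ((if x = y then 1 else 0) + (if y = z then 1 else 0) + (if x = z then 1 else 0)) := by
    intro x y z
    have hb := (mul3_bound (hA x y) (hA y z) (hA x z))
    unfold offdiag
    by_cases h : x = y
    · rw [if_pos h, if_pos h]
      have e1 : (0:ℝ) ≤ if y = z then 1 else 0 := by split_ifs <;> norm_num
      have e2 : (0:ℝ) ≤ if x = z then 1 else 0 := by split_ifs <;> norm_num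
      linarith [hb.2]
    · by_cases h' : y = z
      · rw [if_neg h, if_neg h, if_pos h', if_pos h']
        have e2 : (0:ℝ) ≤ if x = z then 1 else 0 := by split_ifs <;> norm_num
        linarith [hb.2]
      · by_cases h'' : x = z
        · rw [if_neg h, if_neg h, if_neg h', if_neg h', if_pos h'', if_pos h'']
          linarith [hb.2]
        · rw [if_neg h, if_neg h, if_neg h', if_neg h', if_neg h'', if_neg h'']
          linarith
  unfold Tri
  calc ∑ x, ∑ y, ∑ z, A x y * A y z * A x z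
      ≤ ∑ x, ∑ y, ∑ z, (offdiag A x y * offdiag A y z * offdiag A x z +
        ((if x = y then 1 else 0) + (if y = z then 1 else 0) + (if x = z then 1 else 0))) :=
        Finset.sum_le_sum fun x _ => Finset.sum_le_sum fun y _ => Finset.sum_le_sum fun z _ =>
          h1 x y z
    _ = (∑ x, ∑ y, ∑ z, offdiag A x y * offdiag A y z * offdiag A x z) + 3 * (N:ℝ) ^ 2 := by
        simp_rw [Finset.sum_add_distrib]
        simp
        ring

lemma cost_offdiag {p M : ℝ} (hM : ∀ u : ℝ, 0 ≤ u → u ≤ 1 → |Ip p u| ≤ M)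
    (h0 : ∀ u : ℝ, 0 ≤ u → u ≤ 1 → 0 ≤ Ip p u)
    {A : Fin N → Fin N → ℝ} (hA : ∀ x y, 0 ≤ A x y ∧ A x y ≤ 1) :
    Cost (Ip p) (offdiag A) ≤ Cost (Ip p) A + N * M := by
  have h := sum_ite_eq_bound (M := M) (f := fun x y => Ip p (offdiag A x y) - Ip p (A x y)) (by
    intro x y
    unfold offdiag
    split_ifs with h
    · have h1 := (abs_le.mp (hM 0 le_rfl zero_le_one)).2
      have h2 := h0 _ (hA x y).1 (hA x y).2
      linarith
    · simp)
  simp_rw [Finset.sum_sub_distrib] at h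
  unfold Cost
  linarith

/-- Fill in the diagonal so that the matrix becomes monotone. -/
noncomputable def fill (B : Fin N → Fin N → ℝ) (x y : Fin N) : ℝ :=
  if x = y then (if h : (x : ℕ) + 1 < N then B x ⟨(x : ℕ) + 1, h⟩ else 0) else B x y

lemma fill_bd {B : Fin N → Fin N → ℝ} (hB : Good B) (x y : Fin N) :
    0 ≤ fill B x y ∧ fill B x y ≤ 1 := by
  unfold fill
  split_ifs
  · exact hB.bd _ _
  · simp
  · exact hB.bd _ _

lemma fill_symm {B : Fin N → Fin N → ℝ} (hB : Good B) (x y : Fin N) : fill B x y = fill B y x := by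
  by_cases h : x = y
  · rw [h]
  · unfold fill
    rw [if_neg h, if_neg (Ne.symm h), hB.symm]

lemma fill_ge {B : Fin N → Fin N → ℝ} (hB : Good B) (x y : Fin N) : B x y ≤ fill B x y := by
  by_cases h : x = y
  · rw [h, hB.diag]; exact (fill_bd hB _ _).1
  · unfold fill
    rw [if_neg h]

lemma fill_anti {B : Fin N → Fin N → ℝ} (hB : Good B)
    (hc : ∀ i j v : Fin N, i < j → v ≠ i → v ≠ j → B j v ≤ B i v) (v : Fin N) :
    Antitone fun x => fill B x v := by
  intro i j hij
  rcases hij.eq_or_lt with h | hlt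
  · rw [h]
  simp only
  by_cases hvi : v = i
  · subst hvi
    -- v = i < j
    have hlt' : (v : ℕ) < (j : ℕ) := hlt
    have hN : (v : ℕ) + 1 < N := lt_of_le_of_lt hlt' j.2
    unfold fill
    rw [if_neg (ne_of_gt hlt), if_pos rfl, dif_pos hN]
    rcases Nat.lt_or_ge ((v : ℕ) + 1) (j : ℕ) with h | h
    · rw [hB.symm v]
      apply hc ⟨(v : ℕ) + 1, hN⟩ j v
      · exact h
      · intro h'
        have := congrArg Fin.val h'
        simp at this
      · exact ne_of_lt hlt
    · have : j = ⟨(v : ℕ) + 1, hN⟩ := by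
        apply Fin.ext
        simp only
        omega
      rw [← this, hB.symm]
  · by_cases hvj : v = j
    · subst hvj
      unfold fill
      rw [if_pos rfl, if_neg (ne_of_lt hlt)]
      split_ifs with h
      · rw [hB.symm v]
        apply hc i ⟨(v : ℕ) + 1, h⟩ v
        · exact lt_trans hlt (Nat.lt_succ_self _)
        · exact hvi
        · intro h'
          have := congrArg Fin.val h'
          simp at this
      · exact (hB.bd _ _).1
    · unfold fill
      rw [if_neg (Ne.symm hvj), if_neg (Ne.symm hvi)]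
      exact hc i j v hlt hvi hvj

lemma cost_fill {p M : ℝ} (hM : ∀ u : ℝ, 0 ≤ u → u ≤ 1 → |Ip p u| ≤ M)
    (h0 : ∀ u : ℝ, 0 ≤ u → u ≤ 1 → 0 ≤ Ip p u)
    {B : Fin N → Fin N → ℝ} (hB : Good B) :
    Cost (Ip p) (fill B) ≤ Cost (Ip p) B + N * M := by
  have h := sum_ite_eq_bound (M := M) (f := fun x y => Ip p (fill B x y) - Ip p (B x y)) (by
    intro x y
    split_ifs with h
    · have h1 := (abs_le.mp (hM _ (fill_bd hB x y).1 (fill_bd hB x y).2)).2
      have h2 := h0 _ (hB.bd x y).1 (hB.bd x y).2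
      linarith
    · unfold fill
      rw [if_neg h]
      simp)
  simp_rw [Finset.sum_sub_distrib] at h
  unfold Cost
  linarith

lemma TN_mono {A B : Fin N → Fin N → ℝ} (hA : ∀ x y, 0 ≤ A x y) (h : ∀ x y, A x y ≤ B x y) :
    TN A ≤ TN B := by
  unfold TN
  refine E_le fun x => E_le fun y => E_le fun z => ?_
  have h1 := hA x y
  have h2 := hA y z
  have h3 := hA x z
  have := mul_le_mul (h x y) (h y z) h2 (h1.trans (h x y))
  exact mul_le_mul this (h x z) h3 (mul_nonneg (h1.trans (h x y)) (h2.trans (h y z)))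

end matrices

lemma IsGr.TG_integrable {W : ℝ → ℝ → ℝ} (hW : IsGr W) :
    Integrable (fun q : ℝ × ℝ × ℝ => W q.1 q.2.1 * W q.2.1 q.2.2 * W q.1 q.2.2)
      (μ.prod (μ.prod μ)) := by
  refine Integrable.of_bound ((hW.meas12.mul hW.meas23).mul hW.meas13).aestronglyMeasurable 1
    (Eventually.of_forall fun q => ?_)
  have := mul3_bound (hW.bd q.1 q.2.1) (hW.bd q.2.1 q.2.2) (hW.bd q.1 q.2.2)
  rw [Real.norm_of_nonneg this.1]
  exact this.2

lemma IsGr.IG_integrable {p : ℝ} (hp : 0 < p) (hp1 : p < 1) {W : ℝ → ℝ → ℝ} (hW : IsGr W) :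
    Integrable (fun q : ℝ × ℝ => Ip p (W q.1 q.2)) (μ.prod μ) := by
  obtain ⟨M, _, hM⟩ := Ip_bounded hp hp1
  refine Integrable.of_bound ((continuous_Ip hp hp1).measurable.comp hW.meas2).aestronglyMeasurable M
    (Eventually.of_forall fun q => ?_)
  exact hM _ (hW.bd _ _).1 (hW.bd _ _).2

lemma TG_mono {W V : ℝ → ℝ → ℝ} (hW : IsGr W) (hV : IsGr V) (h : ∀ x y, W x y ≤ V x y) :
    TG W ≤ TG V := by
  refine integral_mono hW.TG_integrable hV.TG_integrable fun q => ?_
  have h1 := (hW.bd q.1 q.2.1).1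
  have h2 := (hW.bd q.2.1 q.2.2).1
  have h3 := (hW.bd q.1 q.2.2).1
  have := mul_le_mul (h q.1 q.2.1) (h q.2.1 q.2.2) h2 (h1.trans (h q.1 q.2.1))
  exact mul_le_mul this (h _ _) h3 (mul_nonneg (h1.trans (h _ _)) (h2.trans (h _ _)))

lemma TG_le_one {W : ℝ → ℝ → ℝ} (hW : IsGr W) : TG W ≤ 1 := by
  have h1 : TG W ≤ ∫ _q : ℝ × ℝ × ℝ, (1:ℝ) ∂(μ.prod (μ.prod μ)) :=
    integral_mono hW.TG_integrable (integrable_const 1) fun q =>
      (mul3_bound (hW.bd q.1 q.2.1) (hW.bd q.2.1 q.2.2) (hW.bd q.1 q.2.2)).2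
  simpa using h1

/-- Approximate reduction to monotone graphons. -/
theorem reduce_approx {p : ℝ} (hp : 0 < p) (hp1 : p < 1) {U : ℝ → ℝ → ℝ} (hU : IsGr U) {ε : ℝ}
    (hε : 0 < ε) : ∃ V, IsM p V ∧ TG U - ε ≤ TG V ∧ IG p V ≤ IG p U + ε := by
  obtain ⟨M, hM0, hM⟩ := Ip_bounded hp hp1
  have h0 : ∀ u : ℝ, 0 ≤ u → u ≤ 1 → 0 ≤ Ip p u := fun u => Ip_nonneg hp hp1
  obtain ⟨N₀, hN₀⟩ := exists_nat_gt ((3 + M) / (ε / 2))
  obtain ⟨N, A, hN, hNN, hs, hA, hT, -, hI⟩ := exists_matrix hp hp1 le_rfl zero_le_one hU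
    (fun x y => (hU.bd x y).1) (show 0 < ε / 2 by positivity) N₀
  have hNpos : (0:ℝ) < N := by exact_mod_cast hN
  have hNbig : (3 + M) / N ≤ ε / 2 := by
    have h1 : (3 + M) / (ε / 2) < N := hN₀.trans_le (by exact_mod_cast hNN)
    rw [div_lt_iff₀ (by positivity)] at h1
    rw [div_le_iff₀ hNpos]
    linarith
  have hgood := good_offdiag hs hA
  obtain ⟨B, hB, hBT, hBC, hBm⟩ := exists_compressed (continuous_Ip hp hp1) (offdiag A) hgood
  set D := fill B with hD
  have hDG : IsGr (step hN D) := isGr_step hN D (fill_symm hB) (fill_bd hB)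
  set V : ℝ → ℝ → ℝ := fun x y => max p (step hN D x y) with hV
  have hVG : IsGr V :=
    ⟨measurable_const.max (measurable_step hN D), fun x y => by simp only [hV]; rw [hDG.symm],
      fun x y => ⟨hp.le.trans (le_max_left _ _), max_le hp1.le (hDG.bd _ _).2⟩⟩
  refine ⟨V, ⟨hVG, fun x y => le_max_left _ _, ?_⟩, ?_, ?_⟩
  · intro y x x' hx
    exact max_le_max le_rfl (fill_anti hB hBm _ (idx_mono N hN hx))
  · have h1 : TG (step hN D) ≤ TG V := TG_mono hDG hVG fun x y => le_max_right _ _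
    rw [TG_step] at h1
    have h2 : TN B ≤ TN D := TN_mono (fun x y => (hB.bd x y).1) (fill_ge hB)
    have h3 : TN A ≤ TN B + 3 / N := by
      rw [TN_eq_Tri, TN_eq_Tri]
      have h4 := (tri_offdiag hA).trans (add_le_add_left hBT _)
      have h5 : Tri B / (N:ℝ) ^ 3 + 3 / N = (Tri B + 3 * (N:ℝ) ^ 2) / (N:ℝ) ^ 3 := by
        field_simp
      rw [h5]
      exact div_le_div_of_nonneg_right h4 (by positivity)
    have h6 : 3 / (N:ℝ) ≤ (3 + M) / N := div_le_div_of_nonneg_right (by linarith) hNpos.le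
    have h7 := (abs_lt.mp hT).1
    linarith
  · have h1 : IG p V ≤ IG p (step hN D) := by
      unfold IG
      apply mul_le_mul_of_nonneg_left _ (by norm_num)
      refine integral_mono (hVG.IG_integrable hp hp1) (hDG.IG_integrable hp hp1) fun q => ?_
      simp only [hV]
      rcases le_total p (step hN D q.1 q.2) with h | h
      · rw [max_eq_right h]
      · rw [max_eq_left h, Ip_self hp hp1]
        exact h0 _ (hDG.bd _ _).1 (hDG.bd _ _).2
    rw [IG_step] at h1
    have h2 : IN p D ≤ IN p A + M / N := by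
      rw [IN_eq_Cost, IN_eq_Cost]
      have h3 := cost_fill hM h0 hB
      have h4 := cost_offdiag hM h0 hA
      have h5 : Cost (Ip p) D ≤ Cost (Ip p) A + 2 * (N * M) := by linarith
      have h6 : Cost (Ip p) A / (2 * (N:ℝ) ^ 2) + M / N =
          (Cost (Ip p) A + 2 * (N * M)) / (2 * (N:ℝ) ^ 2) := by field_simp
      rw [h6]
      exact div_le_div_of_nonneg_right h5 (by positivity)
    have h6 : M / (N:ℝ) ≤ (3 + M) / N := div_le_div_of_nonneg_right (by linarith) hNpos.le
    have h7 := (abs_lt.mp hI).2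
    linarith

/-- Exact reduction to monotone graphons. -/
theorem reduce {p : ℝ} (hp : 0 < p) (hp1 : p < 1) {U : ℝ → ℝ → ℝ} (hU : IsGr U) :
    ∃ V, IsM p V ∧ TG U ≤ TG V ∧ IG p V ≤ IG p U := by
  have h := fun n : ℕ => reduce_approx hp hp1 hU (show (0:ℝ) < 1 / ((n:ℝ) + 1) by positivity)
  choose V hV hT hI using h
  obtain ⟨V', hV', φ, hφ, hae⟩ := helly V hV
  have t0 : Tendsto (fun n : ℕ => 1 / (((φ n : ℕ) : ℝ) + 1)) atTop (𝓝 0) :=
    (tendsto_one_div_add_atTop_nhds_zero_nat (𝕜 := ℝ)).comp hφ.tendsto_atTop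
  have t1 := tendsto_TG (fun n => (hV (φ n)).toIsGr) hae
  have t2 := tendsto_IG hp hp1 (fun n => (hV (φ n)).toIsGr) hae
  refine ⟨V', hV', ?_, ?_⟩
  · have := t0.const_sub (TG U)
    rw [sub_zero] at this
    exact le_of_tendsto_of_tendsto' this t1 fun n => hT (φ n)
  · have := t0.const_add (IG p U)
    rw [add_zero] at this
    exact le_of_tendsto_of_tendsto' t2 this fun n => hI (φ n)

/-- `W` minimises the relative entropy among graphons with triangle density `≥ t`. -/
structure IsMin (p t : ℝ) (W : ℝ → ℝ → ℝ) : Prop where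
  gr : IsGr W
  feas : t ≤ TG W
  min : ∀ U, IsGr U → t ≤ TG U → IG p W ≤ IG p U

/-- Existence of monotone minimisers. -/
theorem exists_min {p t : ℝ} (hp : 0 < p) (hp1 : p < 1) (ht : t ≤ 1) :
    ∃ W, IsM p W ∧ IsMin p t W := by
  set S : Set ℝ := {r | ∃ V, IsM p V ∧ t ≤ TG V ∧ IG p V = r} with hS
  have hone : IsM p (fun _ _ => 1) :=
    ⟨⟨measurable_const, fun _ _ => rfl, fun _ _ => ⟨zero_le_one, le_rfl⟩⟩, fun _ _ => hp1.le,
      fun _ => antitone_const⟩
  have hTone : TG (fun _ _ => 1) = 1 := by simp [TG]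
  have hne : S.Nonempty := ⟨_, fun _ _ => 1, hone, by rw [hTone]; exact ht, rfl⟩
  have hbdd : BddBelow S := ⟨0, by
    rintro r ⟨V, hV, -, rfl⟩
    exact IG_nonneg hp hp1 hV.toIsGr⟩
  obtain ⟨u, -, hu, huS⟩ := exists_seq_tendsto_sInf hne hbdd
  choose V hV hT hI using huS
  obtain ⟨V', hV', φ, hφ, hae⟩ := helly V hV
  have t1 := tendsto_TG (fun n => (hV (φ n)).toIsGr) hae
  have t2 := tendsto_IG hp hp1 (fun n => (hV (φ n)).toIsGr) hae
  have hT' : t ≤ TG V' := ge_of_tendsto' t1 fun n => hT (φ n)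
  have hI' : IG p V' = sInf S := by
    refine tendsto_nhds_unique t2 ?_
    have : (fun n => IG p (V (φ n))) = fun n => u (φ n) := funext fun n => hI (φ n)
    rw [this]
    exact hu.comp hφ.tendsto_atTop
  refine ⟨V', hV', hV'.toIsGr, hT', fun U hU hTU => ?_⟩
  obtain ⟨W, hW, hTW, hIW⟩ := reduce hp hp1 hU
  rw [hI']
  exact (csInf_le hbdd ⟨W, hW, hTU.trans hTW, rfl⟩).trans hIW

end Pool.Agent.Helper39.UT
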