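import Pool.Agent.Helper39.UT.Graphon
import Pool.Agent.Helper39.UT.Fin

/-!
# Step graphons
-/

set_option autoImplicit false

open MeasureTheory Set Filter Topology

namespace Pool.Agent.Helper39.UT

/-- The index of the block containing `x`. -/
noncomputable def idx (N : ℕ) (hN : 0 < N) (x : ℝ) : Fin N :=
  ⟨min ⌊(N:ℝ) * x⌋₊ (N - 1), by omega⟩

lemma idx_mono (N : ℕ) (hN : 0 < N) : Monotone (idx N hN) := by
  intro x y hxy
  unfold idx
  rw [Fin.mk_le_mk]
  apply min_le_min_right
  apply Nat.floor_mono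
  exact mul_le_mul_of_nonneg_left hxy (Nat.cast_nonneg N)

lemma measurable_idx (N : ℕ) (hN : 0 < N) : Measurable (idx N hN) := by
  have h : idx N hN = (fun k : ℕ => (⟨min k (N - 1), by omega⟩ : Fin N)) ∘
      (fun x : ℝ => ⌊(N:ℝ) * x⌋₊) := rfl
  rw [h]
  exact measurable_from_nat.comp (Nat.measurable_floor.comp (measurable_const_mul _))

lemma μ_idx (N : ℕ) (hN : 0 < N) (k : Fin N) : μ.real (idx N hN ⁻¹' {k}) = 1 / N := by
  have hN' : (0:ℝ) < N := by exact_mod_cast hN
  have h1 : μ = volume.restrict (Ico (0:ℝ) 1) := Measure.restrict_congr_set Ico_ae_eq_Icc.symm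
  have h2 : idx N hN ⁻¹' {k} ∩ Ico (0:ℝ) 1 = Ico ((k:ℝ) / N) (((k:ℝ) + 1) / N) := by
    ext x
    simp only [mem_inter_iff, mem_preimage, mem_singleton_iff, mem_Ico]
    have hk : (k : ℕ) < N := k.2
    have hk' : ((k : ℕ) : ℝ) + 1 ≤ N := by exact_mod_cast hk
    constructor
    · rintro ⟨h, h0, h1⟩
      have hx : 0 ≤ (N:ℝ) * x := by positivity
      have hlt : (N:ℝ) * x < N := by nlinarith
      have hfl : ⌊(N:ℝ) * x⌋₊ < N := by
        rw [Nat.floor_lt hx]; exact hlt
      have hk2 : ⌊(N:ℝ) * x⌋₊ = (k : ℕ) := by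
        have := congrArg Fin.val h
        simp only [idx] at this
        rw [← this]
        omega
      rw [Nat.floor_eq_iff hx] at hk2
      constructor
      · rw [div_le_iff₀ hN']; linarith [hk2.1]
      · rw [lt_div_iff₀ hN']; linarith [hk2.2]
    · rintro ⟨h, h'⟩
      rw [div_le_iff₀ hN'] at h
      rw [lt_div_iff₀ hN'] at h'
      have hk0 : (0:ℝ) ≤ ((k : ℕ) : ℝ) := Nat.cast_nonneg _
      have hx0 : 0 ≤ x := by
        by_contra hcon
        rw [not_le] at hcon
        nlinarith
      have hx : 0 ≤ (N:ℝ) * x := by positivity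
      have hfl : ⌊(N:ℝ) * x⌋₊ = (k : ℕ) := by
        rw [Nat.floor_eq_iff hx]
        constructor <;> linarith
      refine ⟨?_, hx0, ?_⟩
      · apply Fin.ext
        simp only [idx]
        rw [hfl]
        omega
      · by_contra hcon
        rw [not_lt] at hcon
        nlinarith
  have h3 : μ.real (idx N hN ⁻¹' {k}) = volume.real (idx N hN ⁻¹' {k} ∩ Ico (0:ℝ) 1) := by
    rw [h1, measureReal_restrict_apply (measurable_idx N hN (measurableSet_singleton k))]
  rw [h3, h2]
  rw [Real.volume_real_Ico_of_le (by gcongr; linarith)]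
  field_simp
  ring

lemma mp_idx (N : ℕ) (hN : 0 < N) : MeasurePreserving (idx N hN) μ (μ.map (idx N hN)) :=
  ⟨measurable_idx N hN, rfl⟩

instance (N : ℕ) (hN : 0 < N) : IsProbabilityMeasure (μ.map (idx N hN)) :=
  Measure.isProbabilityMeasure_map (measurable_idx N hN).aemeasurable

lemma int_map (N : ℕ) (hN : 0 < N) (f : Fin N → ℝ) : ∫ k, f k ∂(μ.map (idx N hN)) = E f := by
  rw [integral_fintype Integrable.of_finite]
  unfold E
  rw [Finset.sum_div]
  refine Finset.sum_congr rfl fun k _ => ?_
  rw [map_measureReal_apply (measurable_idx N hN) (measurableSet_singleton k), μ_idx, smul_eq_mul]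
  ring

lemma int1 (N : ℕ) (hN : 0 < N) (f : Fin N → ℝ) : ∫ x, f (idx N hN x) ∂μ = E f := by
  rw [← int_map N hN f]
  exact (integral_map (measurable_idx N hN).aemeasurable
    (measurable_of_countable f).aestronglyMeasurable).symm

lemma int2 (N : ℕ) (hN : 0 < N) (F : Fin N → Fin N → ℝ) :
    ∫ q, F (idx N hN q.1) (idx N hN q.2) ∂(μ.prod μ) = E fun x => E fun y => F x y := by
  have h := (mp_idx N hN).prod (mp_idx N hN)
  have h2 : ∫ q, F (idx N hN q.1) (idx N hN q.2) ∂(μ.prod μ) =
      ∫ q, F q.1 q.2 ∂((μ.map (idx N hN)).prod (μ.map (idx N hN))) := by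
    rw [← h.map_eq]
    exact (integral_map h.measurable.aemeasurable
      (measurable_of_countable fun q : Fin N × Fin N => F q.1 q.2).aestronglyMeasurable).symm
  rw [h2, integral_prod _ Integrable.of_finite, ← int_map N hN]
  refine integral_congr_ae (Eventually.of_forall fun x => ?_)
  exact int_map N hN _

lemma int3 (N : ℕ) (hN : 0 < N) (F : Fin N → Fin N → Fin N → ℝ) :
    ∫ q, F (idx N hN q.1) (idx N hN q.2.1) (idx N hN q.2.2) ∂(μ.prod (μ.prod μ)) =
      E fun x => E fun y => E fun z => F x y z := by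
  have h := (mp_idx N hN).prod ((mp_idx N hN).prod (mp_idx N hN))
  have h2 : ∫ q, F (idx N hN q.1) (idx N hN q.2.1) (idx N hN q.2.2) ∂(μ.prod (μ.prod μ)) =
      ∫ q, F q.1 q.2.1 q.2.2
        ∂((μ.map (idx N hN)).prod ((μ.map (idx N hN)).prod (μ.map (idx N hN)))) := by
    rw [← h.map_eq]
    exact (integral_map h.measurable.aemeasurable
      (measurable_of_countable fun q : Fin N × Fin N × Fin N =>
        F q.1 q.2.1 q.2.2).aestronglyMeasurable).symm
  rw [h2, integral_prod _ Integrable.of_finite, ← int_map N hN]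
  refine integral_congr_ae (Eventually.of_forall fun x => ?_)
  simp only
  rw [integral_prod _ Integrable.of_finite, ← int_map N hN]
  refine integral_congr_ae (Eventually.of_forall fun y => ?_)
  exact int_map N hN _

/-- The step graphon of a matrix. -/
noncomputable def step {N : ℕ} (hN : 0 < N) (A : Fin N → Fin N → ℝ) (x y : ℝ) : ℝ :=
  A (idx N hN x) (idx N hN y)

variable {N : ℕ} (hN : 0 < N) (A : Fin N → Fin N → ℝ)

lemma measurable_step : Measurable (Function.uncurry (step hN A)) := by
  have : Function.uncurry (step hN A) = (fun q : Fin N × Fin N => A q.1 q.2) ∘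
      Prod.map (idx N hN) (idx N hN) := rfl
  rw [this]
  exact (measurable_of_countable _).comp ((measurable_idx N hN).prodMap (measurable_idx N hN))

lemma isGr_step (hs : ∀ x y, A x y = A y x) (hA : ∀ x y, 0 ≤ A x y ∧ A x y ≤ 1) :
    IsGr (step hN A) :=
  ⟨measurable_step hN A, fun _ _ => hs _ _, fun _ _ => hA _ _⟩

lemma TG_step : TG (step hN A) = TN A :=
  int3 N hN fun x y z => A x y * A y z * A x z

lemma CG_step : CG (step hN A) = CN A := by
  have h := int3 N hN fun x y z => A x y * A x z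
  unfold CG CN step
  rw [h]
  refine E_congr fun x => ?_
  simp_rw [E_mul_left, E_mul_right]
  ring

lemma IG_step (p : ℝ) : IG p (step hN A) = IN p A := by
  have h := int2 N hN fun x y => Ip p (A x y)
  unfold IG IN step
  rw [h]

end Pool.Agent.Helper39.UT
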